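import Pool.Agent.P.MP_4ef411_nt.Sm.Poly
import Pool.Agent.P.MP_746f10_nt.LP.Fin

/-! The final statements, from the statement on blocks. -/

open Finset Filter Polynomial

namespace Pool.Agent.P.MP_4ef411_nt.Sm

open Pool.Agent.P.MP_a14ce1_nt

theorem littleO {F : ℕ → ℝ}
    (h : ∀ ε : ℝ, 0 < ε → ∀ᶠ X : ℕ in atTop, ∑ N ∈ Icc 1 X, (1 / (N : ℝ)) * |F N| ≤ ε * Real.log X) :
    Asymptotics.IsLittleO atTop (fun X : ℕ => ∑ N ∈ Icc 1 X, (1 / (N : ℝ)) * |F N|)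
      (fun X : ℕ => Real.log X) := by
  rw [Asymptotics.isLittleO_iff]
  intro ε hε
  filter_upwards [h ε hε] with X hX
  rwa [Real.norm_of_nonneg (sum_nonneg fun N _ => by positivity),
    Real.norm_of_nonneg (Real.log_natCast_nonneg X)]

theorem forms_law (h : S_A) {ρ : ℝ → ℝ} (hρ : Dickman ρ) (k : ℕ) (a b : Fin k → ℕ)
    (u : Fin k → ℝ) (ha : ∀ i, 0 < a i) (hab : ∀ i j, i ≠ j → a i * b j ≠ a j * b i)
    (hu : ∀ i, 0 < u i) :
    Asymptotics.IsLittleO atTop (fun X : ℕ => ∑ N ∈ Icc 1 X, (1 / (N : ℝ)) *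
      |(Set.ncard {n : ℕ | 1 ≤ n ∧ n ≤ N ∧ ∀ i, ∀ p : ℕ, p.Prime → p ∣ a i * n + b i →
        (p : ℝ) ≤ (N : ℝ) ^ (1 / u i)} : ℝ) / N - ∏ i, ρ (u i)|) (fun X : ℕ => Real.log X) := by
  classical
  refine littleO fun ε hε => ?_
  filter_upwards [h _ hρ.dk k a b u ha hab hu ε hε] with X hX
  refine le_trans (le_of_eq (sum_congr rfl fun N _ => ?_)) hX
  have e1 : Set.ncard {n : ℕ | 1 ≤ n ∧ n ≤ N ∧ ∀ i, ∀ p : ℕ, p.Prime → p ∣ a i * n + b i →
      (p : ℝ) ≤ (N : ℝ) ^ (1 / u i)} = cnt a b (fun i => (N : ℝ) ^ (1 / u i)) N := by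
    rw [cnt, ← Set.ncard_coe_finset]
    refine congrArg Set.ncard (Set.ext fun n => ?_)
    simp only [sm, Set.mem_ofPred_eq, coe_filter, mem_Icc, and_assoc]
  rw [e1, prod_congr rfl fun i _ => congrArg ρ (max_eq_left (hu i).le).symm]

theorem poly_eps (h : S_A) {ρ : ℝ → ℝ} (hρ : Dickman ρ) {P : ℤ[X]} (hP : 0 < P.natDegree)
    (hs : (P.map (Int.castRingHom ℚ)).Splits) {u : ℝ} (hu : 0 < u) (ε : ℝ) (hε : 0 < ε) :
    ∀ᶠ X : ℕ in atTop, ∑ N ∈ Icc 1 X, (1 / (N : ℝ)) * |(Psi P N ((N : ℝ) ^ (1 / u)) : ℝ) / N -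
      ρ u ^ (P.map (Int.castRingHom ℚ)).roots.toFinset.card| ≤ ε * Real.log X := by
  classical
  obtain ⟨a, b, K, y0, ha, hab, hK⟩ := forms hP hs
  generalize (P.map (Int.castRingHom ℚ)).roots.toFinset.card = k at a b ha hab hK ⊢
  obtain ⟨N0, hN0⟩ := eventually_atTop.mp (((tendsto_rpow_atTop (one_div_pos.mpr hu)).comp
    tendsto_natCast_atTop_atTop).eventually_ge_atTop (y0 : ℝ))
  have hd : ∀ N : ℕ, |(Psi P N ((N : ℝ) ^ (1 / u)) : ℝ) -
      cnt a b (fun _ => (N : ℝ) ^ (1 / u)) N| ≤ ((K + N0 : ℕ) : ℝ) := fun N => by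
    have key : Psi P N ((N : ℝ) ^ (1 / u)) ≤ cnt a b (fun _ => (N : ℝ) ^ (1 / u)) N + (K + N0) ∧
        cnt a b (fun _ => (N : ℝ) ^ (1 / u)) N ≤ Psi P N ((N : ℝ) ^ (1 / u)) + (K + N0) := by
      rcases le_or_gt N0 N with c | c
      · have := hK N ((N : ℝ) ^ (1 / u)) (hN0 N c)
        omega
      · have h1 := Psi_le P N ((N : ℝ) ^ (1 / u))
        have h2 : cnt a b (fun _ => (N : ℝ) ^ (1 / u)) N ≤ N :=
          (card_filter_le _ _).trans (by simp)
        omega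
    have k1 := (Nat.cast_le (α := ℝ)).mpr key.1
    have k2 := (Nat.cast_le (α := ℝ)).mpr key.2
    rw [Nat.cast_add] at k1 k2
    rw [abs_le]
    constructor <;> linarith
  generalize ((K + N0 : ℕ) : ℝ) = B at hd
  have hB : 0 ≤ B := (abs_nonneg _).trans (hd 0)
  filter_upwards [h _ hρ.dk k a b (fun _ => u) ha hab (fun _ => hu) (ε / 2) (by positivity),
    (Real.tendsto_log_atTop.comp tendsto_natCast_atTop_atTop).eventually_ge_atTop (4 * B / ε)]
    with X hX hX2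
  rw [prod_const, card_univ, Fintype.card_fin, max_eq_left hu.le] at hX
  have key : ∀ N ∈ Icc 1 X, (1 / (N : ℝ)) * |(Psi P N ((N : ℝ) ^ (1 / u)) : ℝ) / N - ρ u ^ k| ≤
      (1 / (N : ℝ)) * |(cnt a b (fun _ => (N : ℝ) ^ (1 / u)) N : ℝ) / N - ρ u ^ k| +
        B * ((1 / (N : ℝ)) * (1 / (N : ℝ))) := fun N hN => by
    have hN' : (0 : ℝ) < N := by exact_mod_cast (mem_Icc.mp hN).1
    have h1 := abs_sub_le ((Psi P N ((N : ℝ) ^ (1 / u)) : ℝ) / N)
      ((cnt a b (fun _ => (N : ℝ) ^ (1 / u)) N : ℝ) / N) (ρ u ^ k)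
    rw [← sub_div, abs_div, abs_of_pos hN'] at h1
    have h2 := div_le_div_of_nonneg_right (hd N) hN'.le
    have h3 := mul_le_mul_of_nonneg_left (h1.trans (add_le_add h2 le_rfl))
      (by positivity : 0 ≤ 1 / (N : ℝ))
    refine h3.trans (le_of_eq ?_)
    ring
  refine (sum_le_sum key).trans ?_
  rw [sum_add_distrib, ← mul_sum]
  have h4 := mul_le_mul_of_nonneg_left (MP_746f10_nt.LP.FinP.sq_le X) hB
  have h5 : 4 * B / ε ≤ Real.log X := hX2
  rw [div_le_iff₀' hε] at h5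
  linarith

theorem unbounded (h : S_A) {P : ℤ[X]} (hP : 0 < P.natDegree)
    (hs : (P.map (Int.castRingHom ℚ)).Splits) (A : ℕ) (K : ℝ) :
    ∃ x y : ℝ, 2 ≤ x ∧ 2 ≤ y ∧ K * y ^ A < Psi P x y := by
  obtain ⟨ρ, hρ⟩ := exists_dickman
  set u : ℝ := 2 * (A + 1) with hu
  have hu0 : 0 < u := by positivity
  have hpos : 0 < ρ u := by
    have := hρ.dk.pos u
    rwa [max_eq_left hu0.le] at this
  have he := poly_eps h hρ hP hs hu0
  have hc : 0 < ρ u ^ (P.map (Int.castRingHom ℚ)).roots.toFinset.card := pow_pos hpos _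
  generalize ρ u ^ (P.map (Int.castRingHom ℚ)).roots.toFinset.card = c at he hc
  by_contra hcon
  push Not at hcon
  have t : ∀ s : ℝ, 0 < s → Tendsto (fun N : ℕ => (N : ℝ) ^ s) atTop atTop := fun s hs =>
    (tendsto_rpow_atTop hs).comp tendsto_natCast_atTop_atTop
  obtain ⟨N1, hN1⟩ := eventually_atTop.mp (((t (1 / u) (by positivity)).eventually_ge_atTop 2).and
    (((t (1 / 2) (by norm_num)).eventually_ge_atTop (2 * |K| / c)).and (eventually_ge_atTop 2)))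
  have low : ∀ N : ℕ, N1 ≤ N → c / 2 ≤ |(Psi P N ((N : ℝ) ^ (1 / u)) : ℝ) / N - c| := fun N hN => by
    obtain ⟨h1, h2, h3⟩ := hN1 N hN
    have h4 : (2 : ℝ) ≤ N := by exact_mod_cast h3
    have h5 := hcon N _ h4 h1
    have h6 : ((N : ℝ) ^ (1 / u)) ^ A ≤ (N : ℝ) ^ (1 / 2 : ℝ) := by
      rw [← Real.rpow_natCast, ← Real.rpow_mul (by linarith)]
      refine Real.rpow_le_rpow_of_exponent_le (by linarith) ?_
      rw [one_div_mul_eq_div, div_le_div_iff₀ hu0 two_pos, hu]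
      linarith
    have h7 : (N : ℝ) ^ (1 / 2 : ℝ) * (N : ℝ) ^ (1 / 2 : ℝ) = N := by
      rw [← Real.rpow_add (by linarith)]
      norm_num
    have h8 : K * ((N : ℝ) ^ (1 / u)) ^ A ≤ |K| * (N : ℝ) ^ (1 / 2 : ℝ) :=
      mul_le_mul (le_abs_self K) h6 (by positivity) (abs_nonneg K)
    rw [div_le_iff₀ hc] at h2
    have h9 := mul_le_mul_of_nonneg_right h2 (show 0 ≤ (N : ℝ) ^ (1 / 2 : ℝ) by positivity)
    have h10 : (Psi P N ((N : ℝ) ^ (1 / u)) : ℝ) / N ≤ c / 2 := by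
      rw [div_le_iff₀ (by linarith)]
      nlinarith
    rw [abs_sub_comm]
    exact le_trans (by linarith) (le_abs_self _)
  obtain ⟨X, hX, hX2⟩ := ((he (c / 4) (by positivity)).and ((Real.tendsto_log_atTop.comp
    tendsto_natCast_atTop_atTop).eventually_gt_atTop (2 * N1))).exists
  have h1 : ∀ N ∈ Icc 1 X, c / 2 * (1 / (N : ℝ)) ≤ (1 / (N : ℝ)) *
      |(Psi P N ((N : ℝ) ^ (1 / u)) : ℝ) / N - c| + if N < N1 then c / 2 else 0 := fun N hN => by
    have hN' : (1 : ℝ) ≤ N := by exact_mod_cast (mem_Icc.mp hN).1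
    split_ifs with c1
    · have : 1 / (N : ℝ) ≤ 1 := by rw [div_le_one (by linarith)]; exact hN'
      have h2 := mul_le_of_le_one_right (show 0 ≤ c / 2 by positivity) this
      have h3 : 0 ≤ (1 / (N : ℝ)) * |(Psi P N ((N : ℝ) ^ (1 / u)) : ℝ) / N - c| := by positivity
      linarith
    · rw [add_zero, mul_comm]
      exact mul_le_mul_of_nonneg_left (low N (not_lt.mp c1)) (by positivity)
  have h2 := sum_le_sum h1
  rw [sum_add_distrib, ← mul_sum, ← sum_filter, sum_const, nsmul_eq_mul] at h2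
  have h3 : (((Icc 1 X).filter fun N => N < N1).card : ℝ) ≤ N1 := by
    have := card_le_card (show (Icc 1 X).filter (fun N => N < N1) ⊆ range N1 from
      fun N hN => mem_range.mpr (mem_filter.mp hN).2)
    rw [card_range] at this
    exact_mod_cast this
  have h4 : Real.log X ≤ ∑ N ∈ Icc 1 X, 1 / (N : ℝ) := by
    have h5 := log_add_one_le_harmonic X
    rw [harmonic_eq_sum_Icc] at h5
    have h6 : Real.log X ≤ Real.log ((X + 1 : ℕ) : ℝ) := by
      rcases Nat.eq_zero_or_pos X with rfl | h0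
      · simp
      · exact Real.log_le_log (by exact_mod_cast h0) (by push_cast; linarith)
    refine h6.trans (h5.trans (le_of_eq ?_))
    simp
  have h5 : 2 * (N1 : ℝ) < Real.log X := hX2
  nlinarith

end Pool.Agent.P.MP_4ef411_nt.Sm
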