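import Pool.Agent.P.MP_4ef411_nt.Sm.StmtS
import Pool.Agent.P.MP_4ef411_nt.Sm.Fin

/-! Systems of polynomials with rational roots. -/

open Finset Filter Polynomial

namespace Pool.Agent.P.MP_4ef411_nt.Sm

theorem shift {P : ℤ[X]} (hP : 0 < P.natDegree) (hs : (P.map (Int.castRingHom ℚ)).Splits) :
    ∃ n1 y0 : ℕ, ∀ n0 : ℕ, n1 ≤ n0 →
      (∀ q ∈ (P.map (Int.castRingHom ℚ)).roots, q.num ≤ (q.den : ℤ) * n0) ∧
      (∀ (y : ℝ) (m : ℕ), y0 ≤ y →
        ((∀ p : ℕ, p.Prime → (p : ℤ) ∣ P.eval ((m : ℤ) + n0) → (p : ℝ) ≤ y) ↔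
          ∀ q ∈ (P.map (Int.castRingHom ℚ)).roots,
            sm y (q.den * m + ((q.den : ℤ) * n0 - q.num).toNat))) ∧
      ∀ m m' : ℕ, 1 ≤ m → m < m' → P.eval ((m : ℤ) + n0) ≠ P.eval ((m' : ℤ) + n0) := by
  classical
  have hev := eval_eq hs
  have hne : (P.map (Int.castRingHom ℚ)).roots ≠ 0 := hs.roots_ne_zero (by
    rw [natDegree_map_eq_of_injective (RingHom.injective_int _)]; omega)
  generalize (P.map (Int.castRingHom ℚ)).roots = R at hev hne ⊢
  have hlc : P.leadingCoeff ≠ 0 := leadingCoeff_ne_zero.mpr (ne_zero_of_natDegree_gt hP)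
  set D := (R.map fun r => (r.den : ℤ)).prod with hD
  have hD0 : D ≠ 0 := Multiset.prod_ne_zero (by
    intro h
    obtain ⟨r, -, hr⟩ := Multiset.mem_map.mp h
    exact r.den_nz (by exact_mod_cast hr))
  refine ⟨∑ r ∈ R.toFinset, r.num.natAbs, P.leadingCoeff.natAbs + D.natAbs, fun n0 hn0 => ?_⟩
  have pos : ∀ r ∈ R, r.num ≤ (r.den : ℤ) * n0 := fun r hr => by
    have h1 : r.num.natAbs ≤ n0 := (single_le_sum (f := fun r : ℚ => r.num.natAbs)
      (fun _ _ => Nat.zero_le _) (Multiset.mem_toFinset.mpr hr)).trans hn0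
    have h2 : (1 : ℤ) ≤ r.den := by exact_mod_cast r.den_pos
    have h3 : r.num ≤ n0 := by omega
    nlinarith [Int.natCast_nonneg n0]
  have hab : ∀ q ∈ R, ∀ m : ℕ, ((q.den * m + ((q.den : ℤ) * n0 - q.num).toNat : ℕ) : ℤ) =
      (q.den : ℤ) * ((m : ℤ) + n0) - q.num := fun q hq m => by
    push_cast
    rw [Int.toNat_of_nonneg (by linarith [pos q hq])]
    ring
  refine ⟨pos, fun y m hy => ?_, fun m m' hm hmm h => ?_⟩
  · have small : ∀ (p : ℕ) (c : ℤ), c ≠ 0 → c.natAbs ≤ P.leadingCoeff.natAbs + D.natAbs →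
        (p : ℤ) ∣ c → (p : ℝ) ≤ y := fun p c hc h1 h2 => by
      have := Nat.le_of_dvd (Int.natAbs_pos.mpr hc) (Int.natCast_dvd.mp h2)
      exact le_trans (by exact_mod_cast this.trans h1) hy
    constructor
    · intro h q hq p hp hd
      have h1 : (p : ℤ) ∣ P.eval ((m : ℤ) + n0) * D := by
        rw [hev]
        refine Dvd.dvd.mul_left (Dvd.dvd.trans ?_ (Multiset.dvd_prod
          (Multiset.mem_map_of_mem _ hq))) _
        rw [← hab q hq]
        exact_mod_cast hd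
      rcases (Nat.prime_iff_prime_int.mp hp).dvd_or_dvd h1 with h2 | h2
      · exact h p hp h2
      · exact small p D hD0 (by omega) h2
    · intro h p hp hd
      have h1 := hd.mul_right D
      rw [hev] at h1
      rcases (Nat.prime_iff_prime_int.mp hp).dvd_or_dvd h1 with h2 | h2
      · exact small p _ hlc (by omega) h2
      · obtain ⟨q, hq, h3⟩ := (Nat.prime_iff_prime_int.mp hp).exists_mem_multiset_map_dvd h2
        refine h q hq p hp ?_
        rw [← hab q hq] at h3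
        exact_mod_cast h3
  · have h1 := hev ((m : ℤ) + n0)
    rw [h, hev] at h1
    have h2 := mul_left_cancel₀ hlc h1
    refine absurd h2 (ne_of_gt (Multiset.prod_map_lt_prod_map hne _ _ (fun r hr => ?_)
      fun r hr => ?_))
    · have h2 : (1 : ℤ) ≤ r.den := by exact_mod_cast r.den_pos
      have h3 : (1 : ℤ) ≤ m := by exact_mod_cast hm
      nlinarith [pos r hr]
    · have h2 : (1 : ℤ) ≤ r.den := by exact_mod_cast r.den_pos
      have h3 : (m : ℤ) < m' := by exact_mod_cast hmm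
      nlinarith

theorem PsiS_le {r : ℕ} (P : Fin r → ℤ[X]) (N : ℕ) (y : Fin r → ℝ) : PsiS P N y ≤ N := by
  classical
  have h : PsiS P N y ≤ ((Icc 1 N).image fun (n : ℕ) (i : Fin r) => (P i).eval (n : ℤ)).card := by
    rw [← Set.ncard_coe_finset]
    refine Set.ncard_le_ncard ?_ (finite_toSet _)
    rintro m ⟨⟨n, h1, h2, h4⟩, -⟩
    have h3 : n < N := by exact_mod_cast h2
    refine mem_coe.mpr (mem_image.mpr ⟨n.toNat, mem_Icc.mpr ⟨by omega, by omega⟩, ?_⟩)
    rw [Int.toNat_of_nonneg (by omega)]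
    exact funext h4
  refine h.trans (card_image_le.trans ?_)
  simp

theorem formsS {r : ℕ} (hr : 0 < r) {P : Fin r → ℤ[X]} (hP : ∀ i, 0 < (P i).natDegree)
    (hs : ∀ i, ((P i).map (Int.castRingHom ℚ)).Splits)
    (hd : ∀ i j, i ≠ j → ∀ q ∈ ((P i).map (Int.castRingHom ℚ)).roots,
      q ∉ ((P j).map (Int.castRingHom ℚ)).roots) :
    ∃ (k : ℕ) (a b : Fin k → ℕ) (ix : Fin k → Fin r) (K y0 : ℕ),
      (∀ i, 0 < a i) ∧ (∀ i j, i ≠ j → a i * b j ≠ a j * b i) ∧
      (∀ g : Fin r → ℝ, ∏ j, g (ix j) =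
        ∏ i, g i ^ ((P i).map (Int.castRingHom ℚ)).roots.toFinset.card) ∧
      ∀ (N : ℕ) (y : Fin r → ℝ), (∀ i, y0 ≤ y i) →
        PsiS P N y ≤ cnt a b (fun j => y (ix j)) N + K ∧
          cnt a b (fun j => y (ix j)) N ≤ PsiS P N y + K := by
  classical
  choose n1 y1 hsh using fun i => shift (hP i) (hs i)
  obtain ⟨R, hR⟩ : ∃ R : Fin r → Multiset ℚ, ∀ i, ((P i).map (Int.castRingHom ℚ)).roots = R i :=
    ⟨_, fun _ => rfl⟩
  simp only [hR] at hsh hd ⊢
  set n0 := ∑ i, n1 i with hn0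
  have h0 := fun i => hsh i n0 (single_le_sum (f := n1) (fun _ _ => Nat.zero_le _) (mem_univ i))
  let e := (Fintype.equivFin (Σ i, (R i).toFinset)).symm
  have eR : ∀ j, (e j).2.1 ∈ R (e j).1 := fun j => Multiset.mem_toFinset.mp (e j).2.2
  set a : Fin (Fintype.card (Σ i, (R i).toFinset)) → ℕ := fun j => (e j).2.1.den with ha
  set b : Fin (Fintype.card (Σ i, (R i).toFinset)) → ℕ :=
    fun j => (((e j).2.1.den : ℤ) * n0 - (e j).2.1.num).toNat with hb
  have hb' : ∀ j, (b j : ℤ) = ((e j).2.1.den : ℤ) * n0 - (e j).2.1.num := fun j =>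
    Int.toNat_of_nonneg (by linarith [(h0 _).1 _ (eR j)])
  have smo : ∀ (y : Fin r → ℝ) (m : ℕ), (∀ i, ((∑ i, y1 i : ℕ) : ℝ) ≤ y i) →
      ((∀ i, ∀ p : ℕ, p.Prime → (p : ℤ) ∣ (P i).eval ((m : ℤ) + n0) → (p : ℝ) ≤ y i) ↔
        ∀ j, sm (y (e j).1) (a j * m + b j)) := fun y m hy => by
    have hy' : ∀ i, (y1 i : ℝ) ≤ y i := fun i => le_trans (by
      exact_mod_cast single_le_sum (f := y1) (fun _ _ => Nat.zero_le _) (mem_univ i)) (hy i)
    constructor
    · exact fun h j => ((h0 _).2.1 _ m (hy' _)).mp (h _) _ (eR j)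
    · intro h i
      refine ((h0 i).2.1 _ m (hy' i)).mpr fun q hq => ?_
      obtain ⟨j, hj⟩ := e.surjective ⟨i, q, Multiset.mem_toFinset.mpr hq⟩
      have h1 := h j
      simp only [ha, hb] at h1
      rwa [hj] at h1
  refine ⟨_, a, b, fun j => (e j).1, n0 + 1, ∑ i, y1 i, fun j => (e j).2.1.den_pos,
    fun i j hij h => hij ?_, fun g => ?_, fun N y hy => ⟨?_, ?_⟩⟩
  · have h1 : (a i : ℤ) * b j = a j * b i := by exact_mod_cast h
    rw [hb', hb'] at h1
    have h2 : (e i).2.1 = (e j).2.1 := Rat.eq_iff_mul_eq_mul.mpr (by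
      simp only [ha] at h1
      linarith)
    have h3 : (e i).1 = (e j).1 := by
      by_contra c
      exact hd _ _ c _ (eR i) (h2 ▸ eR j)
    refine e.injective ?_
    generalize e i = s at h2 h3
    generalize e j = t at h2 h3
    obtain ⟨s1, s2, s3⟩ := s
    obtain ⟨t1, t2, t3⟩ := t
    obtain rfl : s1 = t1 := h3
    obtain rfl : s2 = t2 := h2
    rfl
  · rw [e.prod_comp fun s => g s.1, Fintype.prod_sigma]
    refine prod_congr rfl fun i _ => ?_
    simp
  · have h1 : PsiS P N y ≤ ((((Icc 1 N).filter fun m => ∀ j, sm (y (e j).1) (a j * m + b j)).image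
        fun (m : ℕ) (i : Fin r) => (P i).eval ((m : ℤ) + n0)) ∪
          (range (n0 + 1)).image fun (n : ℕ) (i : Fin r) => (P i).eval (n : ℤ)).card := by
      rw [← Set.ncard_coe_finset]
      refine Set.ncard_le_ncard ?_ (finite_toSet _)
      rintro v ⟨⟨n, h1, h2, h5⟩, h4⟩
      obtain rfl : (fun i => (P i).eval n) = v := funext h5
      have h3 : n < N := by exact_mod_cast h2
      refine mem_coe.mpr (mem_union.mpr ?_)
      by_cases c : n ≤ n0
      · refine Or.inr (mem_image.mpr ⟨n.toNat, mem_range.mpr (by omega), ?_⟩)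
        rw [Int.toNat_of_nonneg (by omega)]
      · have e1 : (((n - n0).toNat : ℕ) : ℤ) + n0 = n := by omega
        refine Or.inl (mem_image.mpr ⟨(n - n0).toNat, mem_filter.mpr
          ⟨mem_Icc.mpr ⟨by omega, by omega⟩, (smo y _ hy).mp ?_⟩, by rw [e1]⟩)
        rw [e1]
        exact h4
    refine h1.trans ((card_union_le _ _).trans (add_le_add card_image_le ?_))
    exact card_image_le.trans (card_range _).le
  · set T := (Icc 1 N).filter fun m => ∀ j, sm (y (e j).1) (a j * m + b j) with hT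
    have h1 : ((T.filter fun m => m + n0 < N).image
        fun (m : ℕ) (i : Fin r) => (P i).eval ((m : ℤ) + n0)).card ≤ PsiS P N y := by
      rw [← Set.ncard_coe_finset]
      refine Set.ncard_le_ncard ?_ ?_
      · intro v hv
        obtain ⟨m, hm, rfl⟩ := mem_image.mp (mem_coe.mp hv)
        obtain ⟨h2, h3⟩ := mem_filter.mp hm
        obtain ⟨h4, h5⟩ := mem_filter.mp h2
        have h6 := (mem_Icc.mp h4).1
        exact ⟨⟨_, by omega, by exact_mod_cast h3, fun _ => rfl⟩, (smo y m hy).mpr h5⟩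
      · refine ((Set.finite_Icc (1 : ℤ) N).image fun n i => (P i).eval n).subset ?_
        rintro v ⟨⟨n, h1, h2, h4⟩, -⟩
        have h3 : n < N := by exact_mod_cast h2
        exact ⟨n, ⟨h1, h3.le⟩, funext h4⟩
    rw [card_image_of_injOn] at h1
    · have h2 := card_filter_add_card_filter_not (s := T) fun m => m + n0 < N
      have h3 : (T.filter fun m => ¬ m + n0 < N).card ≤ (Icc (N - n0) N).card :=
        card_le_card fun m hm => by
          obtain ⟨h2, h3⟩ := mem_filter.mp hm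
          have := (mem_Icc.mp (mem_filter.mp h2).1).2
          exact mem_Icc.mpr ⟨by omega, this⟩
      rw [Nat.card_Icc] at h3
      change T.card ≤ _
      omega
    · intro m hm m' hm' h
      have h2 := (mem_Icc.mp (mem_filter.mp (mem_filter.mp (mem_coe.mp hm)).1).1).1
      have h3 := (mem_Icc.mp (mem_filter.mp (mem_filter.mp (mem_coe.mp hm')).1).1).1
      have h4 := congrFun h ⟨0, hr⟩
      rcases lt_trichotomy m m' with c | c | c
      · exact absurd h4 ((h0 _).2.2 m m' h2 c)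
      · exact c
      · exact absurd h4.symm ((h0 _).2.2 m' m h3 c)

theorem sys_eps (h : S_A) {ρ : ℝ → ℝ} (hρ : Dickman ρ) {r : ℕ} (hr : 0 < r) {P : Fin r → ℤ[X]}
    (hP : ∀ i, 0 < (P i).natDegree) (hs : ∀ i, ((P i).map (Int.castRingHom ℚ)).Splits)
    (hd : ∀ i j, i ≠ j → ∀ q ∈ ((P i).map (Int.castRingHom ℚ)).roots,
      q ∉ ((P j).map (Int.castRingHom ℚ)).roots)
    {u : Fin r → ℝ} (hu : ∀ i, 0 < u i) (ε : ℝ) (hε : 0 < ε) :
    ∀ᶠ X : ℕ in atTop, ∑ N ∈ Icc 1 X, (1 / (N : ℝ)) *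
      |(PsiS P N (fun i => (N : ℝ) ^ (1 / u i)) : ℝ) / N -
        ∏ i, ρ (u i) ^ ((P i).map (Int.castRingHom ℚ)).roots.toFinset.card| ≤ ε * Real.log X := by
  classical
  obtain ⟨k, a, b, ix, K, y0, ha, hab, hg, hK⟩ := formsS hr hP hs hd
  rw [← hg fun i => ρ (u i)]
  obtain ⟨N0, hN0⟩ := eventually_atTop.mp (eventually_all.mpr fun i =>
    ((tendsto_rpow_atTop (one_div_pos.mpr (hu i))).comp
      tendsto_natCast_atTop_atTop).eventually_ge_atTop (y0 : ℝ))
  have hb : ∀ N : ℕ, |(PsiS P N (fun i => (N : ℝ) ^ (1 / u i)) : ℝ) -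
      cnt a b (fun j => (N : ℝ) ^ (1 / u (ix j))) N| ≤ ((K + N0 : ℕ) : ℝ) := fun N => by
    have key : PsiS P N (fun i => (N : ℝ) ^ (1 / u i)) ≤
        cnt a b (fun j => (N : ℝ) ^ (1 / u (ix j))) N + (K + N0) ∧
        cnt a b (fun j => (N : ℝ) ^ (1 / u (ix j))) N ≤
          PsiS P N (fun i => (N : ℝ) ^ (1 / u i)) + (K + N0) := by
      rcases le_or_gt N0 N with c | c
      · have := hK N (fun i => (N : ℝ) ^ (1 / u i)) (hN0 N c)
        omega
      · have h1 := PsiS_le P N (fun i => (N : ℝ) ^ (1 / u i))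
        have h2 : cnt a b (fun j => (N : ℝ) ^ (1 / u (ix j))) N ≤ N :=
          (card_filter_le _ _).trans (by simp)
        omega
    have k1 := (Nat.cast_le (α := ℝ)).mpr key.1
    have k2 := (Nat.cast_le (α := ℝ)).mpr key.2
    rw [Nat.cast_add] at k1 k2
    rw [abs_le]
    constructor <;> linarith
  generalize ((K + N0 : ℕ) : ℝ) = B at hb
  have hB : 0 ≤ B := (abs_nonneg _).trans (hb 0)
  filter_upwards [h _ hρ.dk k a b (fun j => u (ix j)) ha hab (fun _ => hu _) (ε / 2)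
    (by positivity),
    (Real.tendsto_log_atTop.comp tendsto_natCast_atTop_atTop).eventually_ge_atTop (4 * B / ε)]
    with X hX hX2
  rw [prod_congr rfl fun j _ => congrArg ρ (max_eq_left (hu (ix j)).le)] at hX
  generalize ∏ j, ρ (u (ix j)) = c at hX ⊢
  have key : ∀ N ∈ Icc 1 X, (1 / (N : ℝ)) *
      |(PsiS P N (fun i => (N : ℝ) ^ (1 / u i)) : ℝ) / N - c| ≤
      (1 / (N : ℝ)) * |(cnt a b (fun j => (N : ℝ) ^ (1 / u (ix j))) N : ℝ) / N - c| +
        B * ((1 / (N : ℝ)) * (1 / (N : ℝ))) := fun N hN => by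
    have hN' : (0 : ℝ) < N := by exact_mod_cast (mem_Icc.mp hN).1
    have h1 := abs_sub_le ((PsiS P N (fun i => (N : ℝ) ^ (1 / u i)) : ℝ) / N)
      ((cnt a b (fun j => (N : ℝ) ^ (1 / u (ix j))) N : ℝ) / N) c
    rw [← sub_div, abs_div, abs_of_pos hN'] at h1
    have h2 := div_le_div_of_nonneg_right (hb N) hN'.le
    have h3 := mul_le_mul_of_nonneg_left (h1.trans (add_le_add h2 le_rfl))
      (by positivity : 0 ≤ 1 / (N : ℝ))
    refine h3.trans (le_of_eq ?_)
    ring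
  refine (sum_le_sum key).trans ?_
  rw [sum_add_distrib, ← mul_sum]
  have h4 := mul_le_mul_of_nonneg_left (MP_746f10_nt.LP.FinP.sq_le X) hB
  have h5 : 4 * B / ε ≤ Real.log X := hX2
  rw [div_le_iff₀' hε] at h5
  linarith

end Pool.Agent.P.MP_4ef411_nt.Sm
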