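import Pool.Agent.P.MP_4ef411_nt.Sm.Ind

/-! From thresholds that depend on the scale X to thresholds that depend on N. -/

open Finset Filter

namespace Pool.Agent.P.MP_4ef411_nt.Sm

open Pool.Agent.P.MP_a14ce1_nt

theorem cnt_mono {k : ℕ} (a b : Fin k → ℕ) {y z : Fin k → ℝ} (h : ∀ i, y i ≤ z i) (N : ℕ) :
    (cnt a b y N : ℝ) / N ≤ (cnt a b z N : ℝ) / N := by
  classical
  unfold cnt
  refine div_le_div_of_nonneg_right (Nat.cast_le.2 (card_le_card fun n hn => ?_))
    (Nat.cast_nonneg _)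
  rw [mem_filter] at hn ⊢
  exact ⟨hn.1, fun i p hp hd => (hn.2 i p hp hd).trans (h i)⟩

theorem prop_mem {s : Finset ℕ} {N : ℕ} (h : s ⊆ Icc 1 N) :
    0 ≤ (s.card : ℝ) / N ∧ (s.card : ℝ) / N ≤ 1 := by
  refine ⟨by positivity, div_le_one_of_le₀ ?_ (Nat.cast_nonneg _)⟩
  have := card_le_card h
  rw [Nat.card_Icc, Nat.add_sub_cancel] at this
  exact_mod_cast this

theorem prod_sub {ι : Type} (s : Finset ι) {x y : ι → ℝ} (hx : ∀ i, 0 ≤ x i ∧ x i ≤ 1)
    (hy : ∀ i, 0 ≤ y i ∧ y i ≤ 1) : |∏ i ∈ s, x i - ∏ i ∈ s, y i| ≤ ∑ i ∈ s, |x i - y i| := by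
  classical
  induction s using Finset.induction_on with
  | empty => simp
  | insert j s hj ih =>
    rw [prod_insert hj, prod_insert hj, sum_insert hj]
    have e : x j * ∏ i ∈ s, x i - y j * ∏ i ∈ s, y i =
        (x j - y j) * ∏ i ∈ s, y i + x j * (∏ i ∈ s, x i - ∏ i ∈ s, y i) := by ring
    rw [e]
    refine (abs_add_le _ _).trans (add_le_add ?_ ?_)
    · rw [abs_mul, abs_of_nonneg (prod_nonneg fun i _ => (hy i).1)]
      exact mul_le_of_le_one_right (abs_nonneg _)
        (prod_le_one (fun i _ => (hy i).1) fun i _ => (hy i).2)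
    · rw [abs_mul, abs_of_nonneg (hx j).1]
      exact (mul_le_of_le_one_left (abs_nonneg _) (hx j).2).trans ih

/-- one threshold -/
theorem thr {r : ℝ → ℝ} (h : Dk r) {C U u w j0 j i : ℝ} {K N : ℕ}
    (hD : ∀ x y : ℝ, 2 ≤ y → 1 ≤ x → x ≤ y ^ K →
      |(psi ⌊x⌋₊ y : ℝ) - x * r (Real.log x / Real.log y)| ≤ C * x / Real.log y + 1)
    (hC : 0 ≤ C) (hu : 0 < u) (huU : u ≤ U) (hU1 : 1 ≤ U) (hK : 2 * U ≤ K) (hw : U ≤ w)
    (hw' : C * U * j0 ≤ w) (hj0 : 1 ≤ j0) (hj : j0 ≤ j) (hi : j ≤ i) (hi' : i ≤ j + 1) (hN : 1 ≤ N)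
    (hl : j * w ≤ Real.log N) (hl' : Real.log N ≤ (j + 1) * w) :
    |(psi N (Real.exp (i * w / u)) : ℝ) / N - r u| ≤ (U + 2) / j0 := by
  have hN0 : (0 : ℝ) < N := by exact_mod_cast hN
  have hw0 : 0 < w := by linarith
  have hi0 : 0 < i := by linarith
  have hiw : w ≤ i * w := by nlinarith
  have z1 : 1 ≤ i * w / u := by rw [one_le_div hu]; linarith
  have z2 : 2 ≤ Real.exp (i * w / u) := by linarith [Real.add_one_le_exp (i * w / u)]
  have z3 : (N : ℝ) ≤ Real.exp (i * w / u) ^ K := by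
    rw [← Real.exp_nat_mul, ← Real.log_le_iff_le_exp hN0, ← mul_div_assoc, le_div_iff₀ hu]
    have a1 : Real.log N ≤ 2 * (i * w) := by nlinarith
    have a2 : Real.log N * u ≤ 2 * (i * w) * U :=
      mul_le_mul a1 huU hu.le (by positivity)
    nlinarith
  have h1 := hD N _ z2 (by exact_mod_cast hN) z3
  rw [Nat.floor_natCast, Real.log_exp] at h1
  have h2 := h.lip (Real.log N / (i * w / u)) u
  have h3 : |Real.log N / (i * w / u) - u| ≤ U * (1 / j0) := by
    have e : Real.log N / (i * w / u) - u = u * ((Real.log N - i * w) / (i * w)) := by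
      field_simp
    rw [e, abs_mul, abs_of_pos hu]
    refine mul_le_mul huU ?_ (abs_nonneg _) (by linarith)
    rw [abs_div, abs_of_pos (by positivity : 0 < i * w), div_le_div_iff₀ (by positivity)
      (by linarith)]
    have a1 : |Real.log N - i * w| ≤ w := abs_le.mpr ⟨by nlinarith, by nlinarith⟩
    have a2 := mul_le_mul a1 (hj.trans hi) (by linarith) hw0.le
    linarith
  have h4 : C * N / (i * w / u) ≤ N * (1 / j0) := by
    have e : C * N / (i * w / u) = N * (C * u / (i * w)) := by field_simp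
    rw [e]
    refine mul_le_mul_of_nonneg_left ?_ hN0.le
    rw [div_le_div_iff₀ (by positivity) (by linarith)]
    have := mul_le_mul_of_nonneg_right (mul_le_mul_of_nonneg_left huU hC) (by linarith : 0 ≤ j0)
    linarith
  have h5 : 1 ≤ N * (1 / j0) := by
    rw [mul_one_div, one_le_div (by linarith)]
    have a1 := Real.log_le_sub_one_of_pos hN0
    nlinarith
  have h6 : |(psi N (Real.exp (i * w / u)) : ℝ) / N - r (Real.log N / (i * w / u))| ≤
      2 * (1 / j0) := by
    have e : (psi N (Real.exp (i * w / u)) : ℝ) / N - r (Real.log N / (i * w / u)) =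
        ((psi N (Real.exp (i * w / u)) : ℝ) - N * r (Real.log N / (i * w / u))) / N := by
      field_simp
    rw [e, abs_div, abs_of_pos hN0, div_le_iff₀ hN0]
    linarith
  have e : (U + 2) / j0 = U * (1 / j0) + 2 * (1 / j0) := by ring
  rw [e]
  refine (abs_sub_le _ (r (Real.log N / (i * w / u))) _).trans ?_
  linarith

def S_A : Prop := ∀ r, Dk r → ∀ (k : ℕ) (a b : Fin k → ℕ) (u : Fin k → ℝ), (∀ i, 0 < a i) →
  (∀ i j, i ≠ j → a i * b j ≠ a j * b i) → (∀ i, 0 < u i) → ∀ ε : ℝ, 0 < ε →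
  ∀ᶠ X : ℕ in atTop, ∑ N ∈ Icc 1 X, (1 / (N : ℝ)) *
    |(cnt a b (fun i => (N : ℝ) ^ (1 / u i)) N : ℝ) / N - ∏ i, r (u i)| ≤ ε * Real.log X

theorem blk (h1 : S_Ind) : S_A := by
  classical
  intro r hr k a b u ha hab hu ε hε
  set U : ℝ := 1 + ∑ i, u i with hU
  have hU1 : 1 ≤ U := le_add_of_nonneg_right (sum_nonneg fun i _ => (hu i).le)
  have huU : ∀ i, u i ≤ U := fun i => by
    linarith [single_le_sum (f := u) (fun i _ => (hu i).le) (mem_univ i)]
  obtain ⟨K, hK⟩ := exists_nat_ge (2 * U)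
  obtain ⟨C, hC, hD⟩ := dickman hr K
  obtain ⟨j0, hj0⟩ := exists_nat_ge (1 + 8 * (k * (U + 2)) / ε)
  have p3 : 0 ≤ 8 * (k * (U + 2)) / ε := by positivity
  have j1 : (1 : ℝ) ≤ j0 := by linarith
  have j3 : 8 * (k * (U + 2)) ≤ ε * j0 := by rw [← div_le_iff₀' hε]; linarith
  have j4 : (0 : ℝ) < j0 := by linarith
  obtain ⟨m, hm⟩ := exists_nat_ge (4 * j0 / ε)
  have m0 : (0 : ℝ) < m := lt_of_lt_of_le (by positivity) hm
  have m1 : 4 * j0 ≤ ε * m := by rwa [← div_le_iff₀' hε]
  have hlog : Tendsto (fun X : ℕ => Real.log X) atTop atTop :=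
    Real.tendsto_log_atTop.comp tendsto_natCast_atTop_atTop
  filter_upwards [h1 k a b (j0 / (m * U)) (ε / (4 * (m + 2))) ha hab (by positivity)
    (by positivity), hlog.eventually_ge_atTop (m * (U + C * U * j0)),
    hlog.eventually_ge_atTop (4 / ε), hlog.eventually_ge_atTop 1, eventually_ge_atTop 1]
    with X hX hL hL4 hL1 hX1
  have hX0 : (0 : ℝ) < X := by exact_mod_cast hX1
  set L := Real.log X with hLd
  set w := L / m with hw
  have hum : L = w * m := by rw [hw]; field_simp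
  have hub : U + C * U * j0 ≤ w := by rw [hw, le_div_iff₀' m0]; exact hL
  have hCU : 0 ≤ C * U * j0 := by positivity
  have hw0 : 0 < w := by linarith
  set ρ := ∏ i, r (u i) with hρ
  set z : ℕ → Fin k → ℝ := fun j i => Real.exp (j * w / u i) with hz
  set T : ℕ → ℕ → ℝ := fun j N =>
    (1 / (N : ℝ)) * |(cnt a b (z j) N : ℝ) / N - ∏ i, (psi N (z j i) : ℝ) / N| with hT
  have hT0 : ∀ j N, 0 ≤ T j N := fun j N => by
    simp only [hT]
    positivity
  have hTs : ∀ j ∈ Icc j0 (m + 1), ∑ N ∈ Icc 1 X, T j N ≤ ε / (4 * (m + 2)) * L := fun j hj => by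
    refine hX (z j) fun i => ?_
    rw [Real.rpow_def_of_pos hX0, Real.exp_le_exp, ← hLd, hum]
    have : (j0 : ℝ) ≤ j := by exact_mod_cast (mem_Icc.1 hj).1
    have e : w * m * (j0 / (m * U)) = j0 * w / U := by field_simp
    rw [e]
    exact div_le_div₀ (by positivity) (mul_le_mul_of_nonneg_right this hw0.le) (hu i) (huU i)
  set M := ⌊Real.exp (j0 * w)⌋₊ with hM
  have key : ∀ N ∈ Icc 1 X, (1 / (N : ℝ)) *
      |(cnt a b (fun i => (N : ℝ) ^ (1 / u i)) N : ℝ) / N - ρ| ≤
      ∑ j ∈ Icc j0 (m + 1), T j N + k * ((U + 2) / j0) * (1 / (N : ℝ)) +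
        if N ≤ M then 1 / (N : ℝ) else 0 := fun N hN => by
    obtain ⟨hN1, hNX⟩ := mem_Icc.1 hN
    have hN0 : (0 : ℝ) < N := by exact_mod_cast hN1
    have s0 : 0 ≤ ∑ j ∈ Icc j0 (m + 1), T j N := sum_nonneg fun j _ => hT0 j N
    have s1 : 0 ≤ k * ((U + 2) / j0) * (1 / (N : ℝ)) := by positivity
    split_ifs with hNM
    · have d : 0 ≤ (cnt a b (fun i => (N : ℝ) ^ (1 / u i)) N : ℝ) / N ∧
          (cnt a b (fun i => (N : ℝ) ^ (1 / u i)) N : ℝ) / N ≤ 1 := prop_mem (filter_subset _ _)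
      have r1 : 0 ≤ ρ := prod_nonneg fun i _ => (hr.pos _).le
      have r2 : ρ ≤ 1 := prod_le_one (fun i _ => (hr.pos _).le) fun i _ => hr.le_one _
      have : |(cnt a b (fun i => (N : ℝ) ^ (1 / u i)) N : ℝ) / N - ρ| ≤ 1 :=
        abs_le.2 ⟨by linarith [d.1], by linarith [d.2]⟩
      have := mul_le_of_le_one_right (a := 1 / (N : ℝ)) (by positivity) this
      linarith
    · have hlo : j0 * w ≤ Real.log N := by
        rw [Real.le_log_iff_exp_le hN0]
        exact (Nat.floor_lt' (by omega)).1 (not_le.1 hNM) |>.le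
      have hl0 : 0 ≤ Real.log N := Real.log_natCast_nonneg N
      set j := ⌊Real.log N / w⌋₊ with hj
      have q1 : j * w ≤ Real.log N := by
        rw [← le_div_iff₀ hw0]; exact Nat.floor_le (by positivity)
      have q2 : Real.log N ≤ (j + 1) * w := by
        rw [← div_le_iff₀ hw0]; exact (Nat.lt_floor_add_one _).le
      have q3 : j0 ≤ j := Nat.le_floor (by rwa [le_div_iff₀ hw0])
      have q4 : j ≤ m := by
        refine Nat.floor_le_of_le ?_
        rw [div_le_iff₀' hw0, ← hum]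
        exact Real.log_le_log hN0 (by exact_mod_cast hNX)
      have main : ∀ j' : ℕ, j ≤ j' → j' ≤ j + 1 →
          (1 / (N : ℝ)) * |(cnt a b (z j') N : ℝ) / N - ρ| ≤
            ∑ j ∈ Icc j0 (m + 1), T j N + k * ((U + 2) / j0) * (1 / (N : ℝ)) := by
        intro j' c1 c2
        have t1 : |∏ i, (psi N (z j' i) : ℝ) / N - ρ| ≤ k * ((U + 2) / j0) := by
          refine (prod_sub univ (fun i => prop_mem (filter_subset _ _))
            fun i => ⟨(hr.pos _).le, hr.le_one _⟩).trans ?_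
          refine (sum_le_card_nsmul _ _ ((U + 2) / j0) fun i _ => ?_).trans (by simp)
          exact thr hr hD hC (hu i) (huU i) hU1 hK (by linarith) (by linarith) j1
            (by exact_mod_cast q3) (by exact_mod_cast c1) (by exact_mod_cast c2) hN1 q1 q2
        have t3 : T j' N ≤ ∑ j ∈ Icc j0 (m + 1), T j N :=
          single_le_sum (f := fun j => T j N) (fun j _ => hT0 j N) (mem_Icc.2 ⟨by omega, by omega⟩)
        have t6 := (abs_sub_le ((cnt a b (z j') N : ℝ) / N) (∏ i, (psi N (z j' i) : ℝ) / N) ρ).trans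
          (add_le_add le_rfl t1)
        have t7 := mul_le_mul_of_nonneg_left t6 (by positivity : 0 ≤ 1 / (N : ℝ))
        rw [mul_add] at t7
        simp only [hT] at t3
        linarith
      have y1 : ∀ i, z j i ≤ (N : ℝ) ^ (1 / u i) := fun i => by
        rw [Real.rpow_def_of_pos hN0, Real.exp_le_exp, mul_one_div]
        exact div_le_div_of_nonneg_right q1 (hu i).le
      have y2 : ∀ i, (N : ℝ) ^ (1 / u i) ≤ z (j + 1) i := fun i => by
        rw [Real.rpow_def_of_pos hN0, Real.exp_le_exp, mul_one_div]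
        push_cast
        exact div_le_div_of_nonneg_right q2 (hu i).le
      have a1 := cnt_mono a b y1 N
      have a2 := cnt_mono a b y2 N
      rw [add_zero]
      rcases le_total ((cnt a b (fun i => (N : ℝ) ^ (1 / u i)) N : ℝ) / N) ρ with hle | hle
      · refine le_trans (mul_le_mul_of_nonneg_left ?_ (by positivity)) (main j le_rfl (by omega))
        rw [abs_of_nonpos (by linarith), abs_of_nonpos (by linarith)]
        linarith
      · refine le_trans (mul_le_mul_of_nonneg_left ?_ (by positivity))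
          (main (j + 1) (by omega) le_rfl)
        rw [abs_of_nonneg (by linarith), abs_of_nonneg (by linarith)]
        linarith
  refine (sum_le_sum key).trans ?_
  rw [sum_add_distrib, sum_add_distrib, sum_comm, ← mul_sum, ← sum_filter]
  have b1 : ∑ j ∈ Icc j0 (m + 1), ∑ N ∈ Icc 1 X, T j N ≤ ε / 4 * L := by
    refine (sum_le_card_nsmul _ _ _ hTs).trans ?_
    have hcard : ((Icc j0 (m + 1)).card : ℝ) ≤ m + 2 := by
      rw [Nat.card_Icc]
      exact_mod_cast (by omega : m + 1 + 1 - j0 ≤ m + 2)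
    have e : ε / 4 * L = (m + 2) * (ε / (4 * (m + 2)) * L) := by field_simp
    rw [nsmul_eq_mul, e]
    gcongr
  have b2 : k * ((U + 2) / j0) * ∑ N ∈ Icc 1 X, 1 / (N : ℝ) ≤ ε / 4 * L := by
    have c1 : k * ((U + 2) / j0) ≤ ε / 8 := by
      rw [← mul_div_assoc, div_le_div_iff₀ j4 (by norm_num)]
      linarith
    have c2 : ∑ N ∈ Icc 1 X, 1 / (N : ℝ) ≤ 2 * L := by linarith [IV.harm_le X]
    calc _ ≤ ε / 8 * (2 * L) :=
          mul_le_mul c1 c2 (sum_nonneg fun _ _ => by positivity) (by positivity)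
      _ = ε / 4 * L := by ring
  have b3 : ∑ N ∈ (Icc 1 X).filter (fun N => N ≤ M), 1 / (N : ℝ) ≤ 1 + j0 * w := by
    have hM1 : 1 ≤ M := Nat.le_floor (by
      rw [Nat.cast_one]; exact Real.one_le_exp (by positivity))
    refine (sum_le_sum_of_subset_of_nonneg (t := Icc 1 M) (fun N hN => ?_)
      fun _ _ _ => by positivity).trans ((IV.harm_le M).trans ?_)
    · exact mem_Icc.2 ⟨(mem_Icc.1 (mem_filter.1 hN).1).1, (mem_filter.1 hN).2⟩
    · have : Real.log M ≤ j0 * w := by
        rw [Real.log_le_iff_le_exp (by exact_mod_cast hM1)]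
        exact Nat.floor_le (Real.exp_pos _).le
      linarith
  have b4 : 1 ≤ ε / 4 * L := by
    rw [div_le_iff₀' hε] at hL4
    linarith
  have b5 : j0 * w ≤ ε / 4 * L := by
    rw [hum]
    nlinarith
  linarith

end Pool.Agent.P.MP_4ef411_nt.Sm
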