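import Pool.Agent.P.MP_4ef411_nt.Sm.Rho
import Pool.Agent.P.MP_746f10_nt.LP.Den

/-! The theorem of Dickman with an error term. -/

open Finset

namespace Pool.Agent.P.MP_4ef411_nt.Sm

open Pool.Agent.P.MP_a14ce1_nt.Ch.Mertens

/-- all prime factors of n are at most y -/
def sm (y : ℝ) (n : ℕ) : Prop := ∀ p : ℕ, p.Prime → p ∣ n → (p : ℝ) ≤ y

open Classical in
/-- number of y-smooth integers in [1, N] -/
noncomputable def psi (N : ℕ) (y : ℝ) : ℕ := ((Icc 1 N).filter (sm y)).card

theorem psi_triv {N : ℕ} {y : ℝ} (h : (N : ℝ) ≤ y) : psi N y = N := by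
  classical
  unfold psi
  rw [filter_true_of_mem, Nat.card_Icc, Nat.add_sub_cancel]
  intro n hn p _ hd
  rw [mem_Icc] at hn
  have : p ≤ N := (Nat.le_of_dvd hn.1 hd).trans hn.2
  exact le_trans (by exact_mod_cast this) h

theorem buchstab {y : ℝ} (hy : 0 ≤ y) (N : ℕ) :
    psi N y + ∑ p ∈ (Ioc ⌊y⌋₊ N).filter Nat.Prime, psi (N / p) p = N := by
  classical
  have e : (Icc 1 N).filter (fun n => ¬ sm y n) =
      ((Ioc ⌊y⌋₊ N).filter Nat.Prime).biUnion fun p =>
        ((Icc 1 (N / p)).filter (sm p)).image (p * ·) := by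
    ext n
    simp only [mem_filter, mem_biUnion, mem_Icc, mem_Ioc, mem_image]
    constructor
    · rintro ⟨⟨h1, h2⟩, h3⟩
      unfold sm at h3
      push Not at h3
      obtain ⟨q, hq, hqd, hqy⟩ := h3
      have hn0 : n ≠ 0 := by omega
      have hqm : q ∈ n.primeFactors := Nat.mem_primeFactors.mpr ⟨hq, hqd, hn0⟩
      obtain ⟨p, hpm, hmax⟩ := n.primeFactors.exists_max_image id ⟨q, hqm⟩
      obtain ⟨hp, ⟨m, hm⟩, -⟩ := Nat.mem_primeFactors.mp hpm
      have hqp : q ≤ p := hmax q hqm
      have hm0 : 0 < m := Nat.pos_of_ne_zero fun h => hn0 (by rw [hm, h, mul_zero])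
      refine ⟨p, ⟨⟨lt_of_lt_of_le ((Nat.floor_lt hy).2 hqy) hqp, ?_⟩, hp⟩, m, ⟨⟨hm0, ?_⟩, ?_⟩, hm.symm⟩
      · exact (Nat.le_of_dvd h1 ⟨m, hm⟩).trans h2
      · rw [Nat.le_div_iff_mul_le hp.pos, mul_comm, ← hm]
        exact h2
      · intro l hl hld
        have : l ≤ p := hmax l (Nat.mem_primeFactors.mpr ⟨hl, hm ▸ hld.mul_left p, hn0⟩)
        exact_mod_cast this
    · rintro ⟨p, ⟨⟨h1, -⟩, hp⟩, m, ⟨⟨h2, h3⟩, -⟩, rfl⟩
      rw [Nat.le_div_iff_mul_le hp.pos, mul_comm] at h3
      refine ⟨⟨Nat.mul_pos hp.pos h2, h3⟩, fun h => ?_⟩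
      exact absurd (h p hp (dvd_mul_right _ _)) (not_le.mpr ((Nat.floor_lt hy).1 h1))
  have h1 := card_filter_add_card_filter_not (s := Icc 1 N) (sm y)
  rw [e, card_biUnion, Nat.card_Icc, Nat.add_sub_cancel] at h1
  · refine Eq.trans ?_ h1
    unfold psi
    congr 1
    refine sum_congr rfl fun p hp => ?_
    rw [card_image_of_injective]
    exact mul_right_injective₀ (mem_filter.mp hp).2.ne_zero
  · intro p hp q hq hpq
    rw [mem_coe, mem_filter] at hp hq
    refine disjoint_left.2 fun n h1 h2 => ?_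
    obtain ⟨m, hm, rfl⟩ := mem_image.mp h1
    obtain ⟨m', hm', e'⟩ := mem_image.mp h2
    have a1 : p ∣ m' := ((Nat.coprime_primes hp.2 hq.2).2 hpq).dvd_of_dvd_mul_left
      (e' ▸ dvd_mul_right p m)
    have a2 : q ∣ m := ((Nat.coprime_primes hq.2 hp.2).2 (Ne.symm hpq)).dvd_of_dvd_mul_left
      (e' ▸ dvd_mul_right q m')
    have b1 : p ≤ q := by exact_mod_cast (mem_filter.mp hm').2 p hp.2 a1
    have b2 : q ≤ p := by exact_mod_cast (mem_filter.mp hm).2 q hq.2 a2
    exact hpq (le_antisymm b1 b2)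

theorem abel {c g : ℕ → ℝ} {a : ℕ} {e : ℝ} (b : ℕ) (hab : a ≤ b)
    (hc : ∀ m, a ≤ m → |∑ n ∈ Ioc a m, c n| ≤ e) (hg : ∀ n, a ≤ n → g n ≤ g (n + 1)) :
    |∑ n ∈ Ioc a b, c n * g n - (∑ n ∈ Ioc a b, c n) * g b| ≤ e * (g b - g a) := by
  induction b, hab using Nat.le_induction with
  | base => simp
  | succ b hab ih =>
    rw [sum_Ioc_succ_top hab, sum_Ioc_succ_top hab]
    have h1 := abs_le.mp (hc b hab)
    have h2 := hg b hab
    have h3 := abs_le.mp ih
    rw [abs_le]
    constructor <;> nlinarith [h1.1, h1.2, h3.1, h3.2]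

theorem mert : ∃ E : ℝ, 0 < E ∧ ∀ a b : ℕ, 2 ≤ a → a ≤ b →
    |S a b - (Real.log (Real.log b) - Real.log (Real.log a))| ≤ E / Real.log a := by
  obtain ⟨C, hC0, hC⟩ := mertens_nat
  refine ⟨3 * C + 1, by linarith, fun a b ha hab => ?_⟩
  have h1 := S_bound hC ha b hab
  have ha' : (2 : ℝ) ≤ a := by exact_mod_cast ha
  have hab' : (a : ℝ) ≤ b := by exact_mod_cast hab
  have hLa : 0 < Real.log a := Real.log_pos (by linarith)
  have hL : Real.log a ≤ Real.log b := Real.log_le_log (by linarith) hab'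
  have h5 := hC a (by omega)
  have h6 := hC b (by omega)
  generalize Real.log a = La at *
  generalize Real.log b = Lb at *
  have hLb : 0 < Lb := by linarith
  have i1 : 1 / Lb ≤ 1 / La := one_div_le_one_div_of_le hLa hL
  have i0 : 0 < 1 / Lb := by positivity
  have q1 : |(A b - Lb) / Lb| ≤ C * (1 / Lb) := by
    rw [abs_div, abs_of_pos hLb, mul_one_div]; exact div_le_div_of_nonneg_right h6 hLb.le
  have q2 : |(A a - La) / La| ≤ C * (1 / La) := by
    rw [abs_div, abs_of_pos hLa, mul_one_div]; exact div_le_div_of_nonneg_right h5 hLa.le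
  have j1 := mul_le_mul_of_nonneg_left i1 hC0.le
  have j0 := mul_pos hC0 i0
  have e : (3 * C + 1) / La = (3 * C + 1) * (1 / La) := by ring
  rw [e]
  rw [abs_le] at h1 q1 q2 ⊢
  constructor <;> nlinarith [h1.1, h1.2, q1.1, q1.2, q2.1, q2.2]

theorem loglog_le {s t : ℝ} (hs : 1 < s) (hst : s ≤ t) (h1 : Real.log t ≤ Real.log s + 1) :
    Real.log (Real.log t) - Real.log (Real.log s) ≤ 1 / Real.log s := by
  have hs' : 0 < Real.log s := Real.log_pos hs
  have ht' : 0 < Real.log t := Real.log_pos (by linarith)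
  have := Real.log_le_sub_one_of_pos (div_pos ht' hs')
  rw [Real.log_div ht'.ne' hs'.ne', div_sub_one hs'.ne'] at this
  exact this.trans (div_le_div_of_nonneg_right (by linarith) hs'.le)

/-- the telescoping sum -/
theorem tele {r : ℝ → ℝ} (h : Dk r) {L : ℝ} {a : ℕ} (ha : 2 ≤ a) (b : ℕ) (hab : a ≤ b)
    (hL : Real.log b ≤ L) :
    0 ≤ ∑ n ∈ Ioc a b, (Real.log (Real.log n) - Real.log (Real.log (n - 1 : ℕ))) *
        r (L / Real.log n - 1) - (r (L / Real.log b) - r (L / Real.log a)) ∧
      ∑ n ∈ Ioc a b, (Real.log (Real.log n) - Real.log (Real.log (n - 1 : ℕ))) *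
        r (L / Real.log n - 1) - (r (L / Real.log b) - r (L / Real.log a)) ≤
        (r (L / Real.log b - 1) - r (L / Real.log a - 1)) * (1 / Real.log a) := by
  induction b, hab using Nat.le_induction with
  | base => simp
  | succ b hab ih =>
    have ha' : (2 : ℝ) ≤ a := by exact_mod_cast ha
    have hab' : (a : ℝ) ≤ b := by exact_mod_cast hab
    have hb1 : (b : ℝ) ≤ (b + 1 : ℕ) := by push_cast; linarith
    have l1 : Real.log b ≤ Real.log (b + 1 : ℕ) := Real.log_le_log (by linarith) hb1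
    have l0 : 0 < Real.log b := Real.log_pos (by linarith)
    have la : 0 < Real.log a := Real.log_pos (by linarith)
    have lab : Real.log a ≤ Real.log b := Real.log_le_log (by linarith) hab'
    have l2 : Real.log (b + 1 : ℕ) ≤ Real.log b + 1 := by
      have h2 : ((b + 1 : ℕ) : ℝ) ≤ b * 2 := by push_cast; linarith
      have h3 := Real.log_le_log (by positivity) h2
      rw [Real.log_mul (by linarith) (by norm_num)] at h3
      linarith [Real.log_two_lt_d9]
    obtain ⟨i1, i2⟩ := ih (l1.trans hL)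
    rw [sum_Ioc_succ_top hab, Nat.add_sub_cancel]
    have hL0 : 0 < L := by linarith
    have s1 : 1 ≤ L / Real.log (b + 1 : ℕ) := by rw [one_le_div (by linarith)]; exact hL
    have s2 : L / Real.log (b + 1 : ℕ) ≤ L / Real.log b :=
      div_le_div_of_nonneg_left hL0.le l0 l1
    have k := h.log_bd s1 s2
    rw [Real.log_div hL0.ne' l0.ne', Real.log_div hL0.ne' (by linarith)] at k
    have m1 := loglog_le (s := b) (t := (b + 1 : ℕ)) (by linarith) hb1 l2
    have m2 : 1 / Real.log b ≤ 1 / Real.log a := one_div_le_one_div_of_le la lab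
    have m3 := h.anti (show L / Real.log (b + 1 : ℕ) - 1 ≤ L / Real.log b - 1 by linarith)
    have m4 := mul_le_mul_of_nonneg_left (m1.trans m2) (sub_nonneg.mpr m3)
    constructor <;> linarith [k.1, k.2]

/-- the weighted sum over the primes -/
theorem prime_sum {r : ℝ → ℝ} (h : Dk r) : ∃ E : ℝ, 0 < E ∧ ∀ (L : ℝ) (a b : ℕ), 2 ≤ a → a ≤ b →
    Real.log b ≤ L → |∑ p ∈ (Ioc a b).filter Nat.Prime, r (L / Real.log p - 1) / p -
      (r (L / Real.log b) - r (L / Real.log a))| ≤ E / Real.log a := by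
  obtain ⟨E, hE0, hE⟩ := mert
  refine ⟨2 * E + 1, by linarith, fun L a b ha hab hL => ?_⟩
  set l : ℕ → ℝ := fun n => Real.log (Real.log n) - Real.log (Real.log (n - 1 : ℕ)) with hl
  set g : ℕ → ℝ := fun n => r (L / Real.log n - 1) with hg
  set c : ℕ → ℝ := fun n => (if n.Prime then (1 : ℝ) / n else 0) - l n with hc
  have ha' : (2 : ℝ) ≤ a := by exact_mod_cast ha
  have hab' : (a : ℝ) ≤ b := by exact_mod_cast hab
  have la : 0 < Real.log a := Real.log_pos (by linarith)
  have hL0 : 0 ≤ L := le_trans (Real.log_natCast_nonneg b) hL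
  have t1 : ∀ m, a ≤ m → ∑ n ∈ Ioc a m, l n = Real.log (Real.log m) - Real.log (Real.log a) := by
    intro m hm
    induction m, hm using Nat.le_induction with
    | base => simp
    | succ m hm ih =>
      rw [sum_Ioc_succ_top hm, ih]
      simp only [hl, Nat.add_sub_cancel]
      ring
  have t2 : ∀ m, a ≤ m → |∑ n ∈ Ioc a m, c n| ≤ E / Real.log a := fun m hm => by
    have := hE a m ha hm
    rwa [S, sum_filter, ← t1 m hm, ← sum_sub_distrib] at this
  have t3 : ∀ n, a ≤ n → g n ≤ g (n + 1) := fun n hn => by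
    have hn' : (a : ℝ) ≤ n := by exact_mod_cast hn
    refine h.anti (sub_le_sub_right (div_le_div_of_nonneg_left hL0 (Real.log_pos (by linarith))
      (Real.log_le_log (by linarith) (by push_cast; linarith))) _)
  have t4 := abel b hab t2 t3
  have t5 := tele h ha b hab hL
  have e : ∑ p ∈ (Ioc a b).filter Nat.Prime, r (L / Real.log p - 1) / p =
      ∑ n ∈ Ioc a b, c n * g n + ∑ n ∈ Ioc a b, l n * g n := by
    rw [sum_filter, ← sum_add_distrib]
    refine sum_congr rfl fun n _ => ?_
    simp only [hc, hg]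
    split_ifs <;> ring
  rw [e]
  have g0 : ∀ n, 0 < g n := fun n => h.pos _
  have g1 : ∀ n, g n ≤ 1 := fun n => h.le_one _
  have u0 : 0 < E / Real.log a := by positivity
  have u1 : E / Real.log a * (g b - g a) ≤ E / Real.log a :=
    mul_le_of_le_one_right u0.le (by linarith [g0 a, g1 b])
  have u2 : |(∑ n ∈ Ioc a b, c n) * g b| ≤ E / Real.log a := by
    rw [abs_mul, abs_of_pos (g0 b)]
    exact (mul_le_of_le_one_right (abs_nonneg _) (g1 b)).trans (t2 b hab)
  have u3 : (g b - g a) * (1 / Real.log a) ≤ 1 / Real.log a :=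
    mul_le_of_le_one_left (by positivity) (by linarith [g0 a, g1 b])
  have u4 : (2 * E + 1) / Real.log a = 2 * (E / Real.log a) + 1 / Real.log a := by ring
  have u5 : 0 < 1 / Real.log a := by positivity
  rw [u4]
  rw [abs_le] at t4 u2 ⊢
  constructor <;> linarith [t4.1, t4.2, t5.1, t5.2, u2.1, u2.2]

theorem base {r : ℝ → ℝ} (h : Dk r) {x y : ℝ} (hy : 2 ≤ y) (hx : 1 ≤ x) (hxy : x ≤ y) :
    |(psi ⌊x⌋₊ y : ℝ) - x * r (Real.log x / Real.log y)| ≤ 1 := by
  have h1 := Nat.floor_le (show 0 ≤ x by linarith)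
  rw [psi_triv (h1.trans hxy), h.one _ (by
    rw [div_le_one (Real.log_pos (by linarith))]
    exact Real.log_le_log (by linarith) hxy), mul_one, abs_le]
  constructor <;> linarith [Nat.lt_floor_add_one x]

theorem dickman {r : ℝ → ℝ} (h : Dk r) (k : ℕ) : ∃ C : ℝ, 0 ≤ C ∧ ∀ x y : ℝ, 2 ≤ y → 1 ≤ x →
    x ≤ y ^ k → |(psi ⌊x⌋₊ y : ℝ) - x * r (Real.log x / Real.log y)| ≤ C * x / Real.log y + 1 := by
  induction k with
  | zero =>
    refine ⟨0, le_rfl, fun x y hy hx hk => ?_⟩
    have := base h hy hx (by rw [pow_zero] at hk; linarith)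
    simpa using this
  | succ k ih =>
    obtain ⟨C, hC0, hC⟩ := ih
    obtain ⟨E, hE0, hE⟩ := prime_sum h
    obtain ⟨F, hF0, hF⟩ := mert
    refine ⟨C * (2 * (k + 1) + 2 * F) + 2 * (E + 8), by positivity, fun x y hy hx hk => ?_⟩
    have hly : 0 < Real.log y := Real.log_pos (by linarith)
    have hx0 : 0 < x := by linarith
    rcases le_or_gt x y with hxy | hxy
    · refine (base h hy hx hxy).trans (le_add_of_nonneg_left (by positivity))
    set a := ⌊y⌋₊ with ha
    set b := ⌊x⌋₊ with hb
    set L := Real.log x with hL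
    have a2 : 2 ≤ a := Nat.le_floor (by simpa using hy)
    have ab : a ≤ b := Nat.floor_le_floor hxy.le
    have a2' : (2 : ℝ) ≤ a := by exact_mod_cast a2
    have ab' : (a : ℝ) ≤ b := by exact_mod_cast ab
    have ay : (a : ℝ) ≤ y := Nat.floor_le (by linarith)
    have bx : (b : ℝ) ≤ x := Nat.floor_le hx0.le
    have la : 0 < Real.log a := Real.log_pos (by linarith)
    have lab : Real.log a ≤ Real.log b := Real.log_le_log (by linarith) ab'
    have f1 := log_floor (y := y) (by linarith)
    have f2 := log_floor (y := x) hx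
    rw [← ha] at f1
    rw [← hb, ← hL] at f2
    have f3 : Real.log y ≤ Real.log a * 2 := by
      have h4 : y ≤ (a : ℝ) ^ 2 := by nlinarith [Nat.lt_floor_add_one y]
      have h5 := Real.log_le_log (by linarith) h4
      rw [Real.log_pow] at h5
      push_cast at h5
      linarith
    have i2 : 1 / Real.log a ≤ 2 * (1 / Real.log y) := by
      rw [mul_one_div, div_le_div_iff₀ la hly]; linarith
    have i3 : 1 / Real.log b ≤ 1 / Real.log a := one_div_le_one_div_of_le la lab
    have hyL : Real.log y ≤ L := Real.log_le_log (by linarith) hxy.le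
    have hL0 : 0 < L := by linarith
    have hLk : L ≤ (k + 1) * Real.log y := by
      have := Real.log_le_log hx0 hk
      rw [Real.log_pow] at this
      push_cast at this
      exact this
    -- the sum of reciprocals
    have s1 : S a b ≤ 2 * (k + 1) + 2 * F := by
      have h1 := (abs_le.mp (hF a b a2 ab)).2
      have h2 := Real.log_le_sub_one_of_pos (div_pos (la.trans_le lab) la)
      rw [Real.log_div (la.trans_le lab).ne' la.ne'] at h2
      have h3 : Real.log b / Real.log a ≤ 2 * (k + 1) := by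
        rw [div_le_iff₀ la]
        have : (0 : ℝ) ≤ k + 1 := by positivity
        nlinarith [f2.1]
      have h4 : F / Real.log a ≤ 2 * F := by
        rw [div_le_iff₀ la]
        have : Real.log 2 ≤ Real.log a := Real.log_le_log two_pos a2'
        nlinarith [Real.log_two_gt_d9]
      linarith
    -- each term
    have t1 : ∀ p ∈ (Ioc a b).filter Nat.Prime,
        |(psi (b / p) p : ℝ) - x * (r (L / Real.log p - 1) / p)| ≤
          C * x / Real.log y * (1 / p) + 1 := fun p hp => by
      obtain ⟨hp1, hp2⟩ := mem_filter.mp hp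
      obtain ⟨hp3, hp4⟩ := mem_Ioc.mp hp1
      have yp : y < p := (Nat.floor_lt (by linarith)).1 hp3
      have px : (p : ℝ) ≤ x := le_trans (by exact_mod_cast hp4) bx
      have p0 : (0 : ℝ) < p := by linarith
      have lp : Real.log y ≤ Real.log p := Real.log_le_log (by linarith) yp.le
      have h1 := hC (x / p) p (by linarith) (by rw [one_le_div p0]; exact px) (by
        rw [div_le_iff₀ p0, ← pow_succ]
        exact hk.trans (pow_le_pow_left₀ (by linarith) yp.le _))
      rw [Nat.floor_div_natCast, ← hb, Real.log_div hx0.ne' p0.ne', ← hL, sub_div,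
        div_self (by linarith)] at h1
      have e1 : x / p * r (L / Real.log p - 1) = x * (r (L / Real.log p - 1) / p) := by ring
      rw [e1] at h1
      refine h1.trans (add_le_add_left ?_ _)
      have e2 : C * x / Real.log y * (1 / p) = C * (x / p) / Real.log y := by ring
      rw [e2]
      exact div_le_div_of_nonneg_left (by positivity) hly lp
    have t2 := (abs_sum_le_sum_abs _ _).trans (sum_le_sum t1)
    rw [sum_sub_distrib, ← mul_sum, sum_add_distrib, ← mul_sum, ← S, sum_const, nsmul_eq_mul,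
      mul_one] at t2
    have t3 := MP_746f10_nt.LP.DenP.card_le (a := a) (a2.trans ab)
    have t4 : 6 * (b : ℝ) / Real.log b ≤ 6 * x * (1 / Real.log a) := by
      rw [div_eq_mul_one_div]
      exact mul_le_mul (by linarith) i3 (div_pos one_pos (la.trans_le lab)).le (by positivity)
    have t5 := hE L a b a2 ab f2.1
    have t6 : 0 ≤ 1 - r (L / Real.log b) ∧ 1 - r (L / Real.log b) ≤ 1 / Real.log a := by
      refine ⟨sub_nonneg.mpr (h.le_one _), ?_⟩
      have h1 := h.sub_le (s := 1) (t := L / Real.log b) (by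
        rw [one_le_div (la.trans_le lab)]; exact f2.1)
      rw [h.one 1 le_rfl, div_sub_one (la.trans_le lab).ne'] at h1
      exact h1.trans ((div_le_div_of_nonneg_right (by linarith [f2.2])
        (la.trans_le lab).le).trans i3)
    have t7 : 0 ≤ r (L / Real.log y) - r (L / Real.log a) ∧
        r (L / Real.log y) - r (L / Real.log a) ≤ 1 / Real.log a := by
      have h0 : L / Real.log y ≤ L / Real.log a := div_le_div_of_nonneg_left hL0.le la f1.1
      refine ⟨sub_nonneg.mpr (h.anti h0), ?_⟩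
      have h1 := h.sub_le_log (by rw [one_le_div hly]; exact hyL) h0
      rw [Real.log_div hL0.ne' la.ne', Real.log_div hL0.ne' hly.ne'] at h1
      have h2 := loglog_le (s := a) (t := y) (by linarith) ay f1.2
      linarith
    have t8 := buchstab (y := y) (by linarith) b
    rw [← ha] at t8
    have t9 : (psi b y : ℝ) + ∑ p ∈ (Ioc a b).filter Nat.Prime, (psi (b / p) p : ℝ) = b := by
      exact_mod_cast t8
    have t10 := Nat.lt_floor_add_one x
    rw [← hb] at t10
    have w0 : 0 ≤ C * x / Real.log y := by positivity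
    have w1 := mul_le_mul_of_nonneg_left s1 w0
    have w2 : |∑ p ∈ (Ioc a b).filter Nat.Prime, r (L / Real.log p - 1) / p -
        (1 - r (L / Real.log y))| ≤ (E + 1) * (1 / Real.log a) := by
      have e : E / Real.log a = E * (1 / Real.log a) := by ring
      rw [e] at t5
      rw [abs_le] at t5 ⊢
      constructor <;> linarith [t5.1, t5.2, t6.1, t6.2, t7.1, t7.2]
    have w3 := mul_le_mul_of_nonneg_left w2 hx0.le
    rw [← abs_of_pos hx0, ← abs_mul, abs_of_pos hx0] at w3
    have w4 := mul_le_mul_of_nonneg_left i2 (show 0 ≤ (E + 8) * x by positivity)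
    have w5 : 0 ≤ x * (1 / Real.log a) := by positivity
    have e : (C * (2 * (k + 1) + 2 * F) + 2 * (E + 8)) * x / Real.log y =
        C * x / Real.log y * (2 * (k + 1) + 2 * F) + (E + 8) * x * (2 * (1 / Real.log y)) := by
      ring
    rw [e]
    rw [abs_le] at t2 w3 ⊢
    constructor <;> linarith [t2.1, t2.2, w3.1, w3.2]

end Pool.Agent.P.MP_4ef411_nt.Sm
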