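import Pool.Agent.P.MP_4ef411_nt.Sm.Dick
import Pool.Agent.P.MP_746f10_nt.LP.Ind

/-! Independence of the events that the forms take smooth values. -/

open Finset Filter

namespace Pool.Agent.P.MP_4ef411_nt.Sm

open Pool.Agent.P.MP_a14ce1_nt
open Pool.Agent.P.MP_a14ce1_nt.Ch (pr)
open Pool.Agent.P.MP_a14ce1_nt.V (av)
open Pool.Agent.P.MP_e30989_nt.W (UCM)
open Pool.Agent.P.MP_746f10_nt.LP (Tr S_G IndP.av_sum)

open Classical in
/-- number of the n in [1, N] at which all forms are smooth -/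
noncomputable def cnt {k : ℕ} (a b : Fin k → ℕ) (y : Fin k → ℝ) (N : ℕ) : ℕ :=
  ((Icc 1 N).filter fun n => ∀ i, sm (y i) (a i * n + b i)).card

/-- a power of ζ with exponent the number of large prime factors -/
noncomputable def ch (ζ : ℂ) (y Z : ℝ) (n : ℕ) : ℂ := ζ ^ Nil.bigOm (pr y Z) n

theorem ucm_ch {ζ : ℂ} (hζ : ‖ζ‖ = 1) (y Z : ℝ) : UCM (ch ζ y Z) := by
  have h : ∀ n, ‖ch ζ y Z n‖ = 1 := fun n => by simp [ch, hζ]
  exact ⟨⟨fun m n hm hn => by rw [ch, ch, ch, Nil.Major.bigOm_mul _ hm hn, pow_add],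
    fun n => (h n).le⟩, fun n _ => h n⟩

theorem tr_ch (ζ : ℂ) (y Z : ℝ) : Tr y (ch ζ y Z) := fun p hp hy => by
  rw [ch, Nil.Major.bigOm_prime hp, pow_zero]
  intro h
  have h1 := (mem_Ioc.1 (mem_filter.1 h).1).1
  have h2 : p ≤ ⌊y⌋₊ := Nat.le_floor hy
  omega

open Classical in
theorem ind_eq {ζ : ℂ} {M : ℕ} (hζ : IsPrimitiveRoot ζ M) {y Z : ℝ} (hy : 1 ≤ y) (hZ : Z < y ^ M)
    {n : ℕ} (hn : 1 ≤ n) (hnZ : (n : ℝ) ≤ Z) :
    ∑ j : Fin M, (1 / (M : ℂ)) * ch (ζ ^ j.1) y Z n = if sm y n then 1 else 0 := by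
  have hn0 : n ≠ 0 := by omega
  have hy0 : 0 ≤ y := by linarith
  have hn1 : (1 : ℝ) ≤ n := by exact_mod_cast hn
  have hM : M ≠ 0 := by
    rintro rfl
    rw [pow_zero] at hZ
    linarith
  have hM' : (M : ℂ) ≠ 0 := by exact_mod_cast hM
  have hlt : Nil.bigOm (pr y Z) n < M := by
    have h2 := Nil.Major.pow_bigOm_le (P := pr y Z) (Z := y) hy0
      (fun q hq => ((Nat.floor_lt hy0).1 (mem_Ioc.1 (mem_filter.1 hq).1).1).le) hn0
    by_contra h
    have h4 := pow_le_pow_right₀ hy (not_lt.mp h)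
    linarith
  rw [← mul_sum]
  simp only [ch]
  split_ifs with hb
  · have h3 : Nil.bigOm (pr y Z) n = 0 := by
      refine sum_eq_zero fun p hp => Nat.factorization_eq_zero_of_not_dvd fun hd => ?_
      exact absurd (hb p (mem_filter.1 hp).2 hd)
        (not_le.mpr ((Nat.floor_lt hy0).1 (mem_Ioc.1 (mem_filter.1 hp).1).1))
    simp [h3, hM']
  · unfold sm at hb
    push Not at hb
    obtain ⟨p, hp, hd, hyp⟩ := hb
    have hpn : (p : ℝ) ≤ n := by exact_mod_cast Nat.le_of_dvd hn hd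
    have hm : p ∈ pr y Z := mem_filter.2 ⟨mem_Ioc.2 ⟨(Nat.floor_lt hy0).2 hyp,
      Nat.le_floor (hpn.trans hnZ)⟩, hp⟩
    have h1 : 1 ≤ Nil.bigOm (pr y Z) n :=
      le_trans (hp.factorization_pos_of_dvd hn0 hd)
        (single_le_sum (f := fun p => n.factorization p) (fun _ _ => Nat.zero_le _) hm)
    generalize Nil.bigOm (pr y Z) n = t at *
    have h5 : ζ ^ t ≠ 1 := hζ.pow_ne_one_of_pos_of_lt (by omega) hlt
    have h6 : ∑ j : Fin M, (ζ ^ j.1) ^ t = ∑ j ∈ range M, (ζ ^ t) ^ j := by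
      rw [Finset.sum_range]
      exact sum_congr rfl fun j _ => by rw [← pow_mul, ← pow_mul, mul_comm]
    rw [h6, geom_sum_eq h5, ← pow_mul, mul_comm t, pow_mul, hζ.pow_eq_one]
    simp

open Classical in
theorem key {ζ : ℂ} {M : ℕ} (hζ : IsPrimitiveRoot ζ M) {k : ℕ} {a b : Fin k → ℕ}
    (ha : ∀ i, 0 < a i) {y : Fin k → ℝ} {Z : ℝ} (hy : ∀ i, 1 ≤ y i) (hZ : ∀ i, Z < y i ^ M) {N : ℕ}
    (h1 : (N : ℝ) ≤ Z) (h2 : ∀ i, ((a i * N + b i : ℕ) : ℝ) ≤ Z) :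
    |(cnt a b y N : ℝ) / N - ∏ i, (psi N (y i) : ℝ) / N| ≤ ∑ s : Fin k → Fin M,
      ‖av (fun n => ∏ i, ch (ζ ^ (s i).1) (y i) Z (a i * n + b i)) N -
        ∏ i, av (ch (ζ ^ (s i).1) (y i) Z) N‖ := by
  have ex : ∀ u : Fin k → Fin M → ℂ, ∏ i, ∑ j : Fin M, (1 / (M : ℂ)) * u i j =
      ∑ s : Fin k → Fin M, (∏ _i : Fin k, (1 / (M : ℂ))) * ∏ i, u i (s i) := fun u => by
    rw [Fintype.prod_sum]
    exact sum_congr rfl fun s _ => prod_mul_distrib
  have e1 : ((cnt a b y N : ℝ) : ℂ) / N = av (fun n => ∏ i, ∑ j : Fin M,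
      (1 / (M : ℂ)) * ch (ζ ^ j.1) (y i) Z (a i * n + b i)) N := by
    have : ∀ n ∈ Icc 1 N, ∏ i, ∑ j : Fin M, (1 / (M : ℂ)) * ch (ζ ^ j.1) (y i) Z (a i * n + b i) =
        if ∀ i, sm (y i) (a i * n + b i) then 1 else 0 := fun n hn => by
      obtain ⟨hn1, hn2⟩ := mem_Icc.1 hn
      rw [prod_congr rfl fun i _ => ind_eq hζ (hy i) (hZ i)
        (le_trans (Nat.mul_pos (ha i) hn1) (Nat.le_add_right _ _))
        (le_trans (by exact_mod_cast Nat.add_le_add_right (Nat.mul_le_mul_left _ hn2) _) (h2 i))]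
      by_cases h : ∀ i, sm (y i) (a i * n + b i)
      · rw [if_pos h]
        exact prod_eq_one fun i _ => if_pos (h i)
      · rw [if_neg h]
        obtain ⟨i, hi⟩ := not_forall.mp h
        exact prod_eq_zero (mem_univ i) (if_neg hi)
    rw [av, sum_congr rfl this, sum_boole, cnt]
    push_cast
    ring
  have e2 : ∀ i, ((psi N (y i) : ℝ) : ℂ) / N =
      ∑ j : Fin M, (1 / (M : ℂ)) * av (ch (ζ ^ j.1) (y i) Z) N := fun i => by
    rw [← IndP.av_sum, av, sum_congr rfl fun n hn => ind_eq hζ (hy i) (hZ i) (mem_Icc.1 hn).1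
      (le_trans (by exact_mod_cast (mem_Icc.1 hn).2) h1), sum_boole, psi]
    push_cast
    ring
  have e3 : (((cnt a b y N : ℝ) / N - ∏ i, (psi N (y i) : ℝ) / N : ℝ) : ℂ) =
      ∑ s : Fin k → Fin M, (∏ _i : Fin k, (1 / (M : ℂ))) *
        (av (fun n => ∏ i, ch (ζ ^ (s i).1) (y i) Z (a i * n + b i)) N -
          ∏ i, av (ch (ζ ^ (s i).1) (y i) Z) N) := by
    rw [Complex.ofReal_sub, Complex.ofReal_div, Complex.ofReal_prod]
    simp only [Complex.ofReal_div, Complex.ofReal_natCast (n := N)]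
    rw [e1, prod_congr rfl fun i _ => e2 i, ex, funext fun n => ex fun i j =>
      ch (ζ ^ j.1) (y i) Z (a i * n + b i), IndP.av_sum]
    simp only [mul_sub, sum_sub_distrib]
  rw [← Real.norm_eq_abs, ← Complex.norm_real, e3]
  refine (norm_sum_le _ _).trans (sum_le_sum fun s _ => ?_)
  rw [norm_mul, norm_prod]
  refine mul_le_of_le_one_left (norm_nonneg _)
    (prod_le_one (fun _ _ => norm_nonneg _) fun i _ => ?_)
  rw [norm_div, norm_one, Complex.norm_natCast]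
  have : 1 ≤ M := (s i).pos
  exact div_le_one_of_le₀ (by exact_mod_cast this) (Nat.cast_nonneg _)

def S_Ind : Prop := ∀ (k : ℕ) (a b : Fin k → ℕ) (η δ : ℝ), (∀ i, 0 < a i) →
  (∀ i j, i ≠ j → a i * b j ≠ a j * b i) → 0 < η → 0 < δ →
  ∀ᶠ X : ℕ in atTop, ∀ y : Fin k → ℝ, (∀ i, (X : ℝ) ^ η ≤ y i) →
    ∑ N ∈ Icc 1 X, (1 / (N : ℝ)) * |(cnt a b y N : ℝ) / N - ∏ i, (psi N (y i) : ℝ) / N| ≤
      δ * Real.log X

theorem ind (h : S_G) : S_Ind := by
  intro k a b η δ ha hab hη hδ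
  obtain ⟨M, hM⟩ := exists_nat_gt (2 / η)
  have hM0 : (0 : ℝ) < M := lt_trans (by positivity) hM
  have hζ := Complex.isPrimitiveRoot_exp M (by exact_mod_cast hM0.ne')
  have hn := hζ.norm'_eq_one (by exact_mod_cast hM0.ne')
  generalize Complex.exp (2 * Real.pi * Complex.I / M) = ζ at hζ hn
  have hK : (0 : ℝ) < M ^ k := by positivity
  filter_upwards [h k a b η (δ / M ^ k) ha hab hη (by positivity), eventually_ge_atTop 2,
    eventually_ge_atTop (∑ i, (a i + b i))] with X hX hX2 hXs y hy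
  have hX1 : (1 : ℝ) < X := by exact_mod_cast hX2
  have hy1 : ∀ i, 1 ≤ y i := fun i => le_trans (Real.one_le_rpow hX1.le hη.le) (hy i)
  have hZ : ∀ i, (X : ℝ) ^ 2 < y i ^ M := fun i => by
    refine lt_of_lt_of_le ?_ (pow_le_pow_left₀ (by positivity) (hy i) M)
    rw [← Real.rpow_natCast, ← Real.rpow_natCast, ← Real.rpow_mul (by linarith)]
    refine Real.rpow_lt_rpow_of_exponent_lt hX1 ?_
    rw [div_lt_iff₀' hη] at hM
    exact_mod_cast hM
  have h1 : ∀ s : Fin k → Fin M, ∑ N ∈ Icc 1 X, (1 / (N : ℝ)) *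
      ‖av (fun n => ∏ i, ch (ζ ^ (s i).1) (y i) (X ^ 2) (a i * n + b i)) N -
        ∏ i, av (ch (ζ ^ (s i).1) (y i) (X ^ 2)) N‖ ≤ δ / M ^ k * Real.log X := fun s =>
    hX (fun i => ch (ζ ^ (s i).1) (y i) (X ^ 2)) fun i =>
      ⟨ucm_ch (by rw [norm_pow, hn, one_pow]) _ _, (tr_ch _ _ _).mono (hy i)⟩
  have h2 := sum_le_sum fun s (_ : s ∈ (univ : Finset (Fin k → Fin M))) => h1 s
  rw [sum_const, card_univ, Fintype.card_fun, Fintype.card_fin, Fintype.card_fin, nsmul_eq_mul,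
    sum_comm] at h2
  have e : ((M ^ k : ℕ) : ℝ) * (δ / M ^ k * Real.log X) = δ * Real.log X := by
    push_cast
    field_simp
  rw [e] at h2
  refine le_trans (sum_le_sum fun N hN => ?_) h2
  obtain ⟨hN1, hN2⟩ := mem_Icc.1 hN
  rw [← mul_sum]
  refine mul_le_mul_of_nonneg_left (key hζ ha hy1 hZ ?_ fun i => ?_) (by positivity)
  · have : N ≤ X ^ 2 := by nlinarith
    exact_mod_cast this
  · have h3 : a i + b i ≤ X := le_trans
      (single_le_sum (f := fun i => a i + b i) (fun _ _ => Nat.zero_le _) (mem_univ i)) hXs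
    have : a i * N + b i ≤ X ^ 2 := by nlinarith
    exact_mod_cast this

end Pool.Agent.P.MP_4ef411_nt.Sm
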