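import Pool.Agent.P.MP_4ef411_nt.Sm.Stmt
import Pool.Agent.P.MP_4ef411_nt.Sm.Blk

/-! From linear forms to polynomials with rational roots. -/

open Finset Filter Polynomial

namespace Pool.Agent.P.MP_4ef411_nt.Sm

theorem Dickman.dk {ρ : ℝ → ℝ} (h : Dickman ρ) : Dk fun u => ρ (max u 0) := by
  obtain ⟨h1, h2, h3⟩ := h
  refine ⟨fun u hu => h1 _ (le_max_right _ _) (max_le hu zero_le_one),
    h2.comp_continuous (continuous_id.max continuous_const) fun u => le_max_right u 0,
    fun u hu => ?_⟩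
  have e : (fun u => ρ (max u 0)) =ᶠ[nhds u] ρ :=
    eventually_of_mem (Ioi_mem_nhds (show 0 < u by linarith)) fun x hx => by
      simp only [max_eq_left (le_of_lt (Set.mem_Ioi.mp hx))]
  refine ((h3 u hu).congr_of_eventuallyEq e).congr_deriv ?_
  rw [max_eq_left (by linarith)]

theorem exists_dickman : ∃ ρ, Dickman ρ := by
  obtain ⟨r, hr⟩ := exists_dk
  exact ⟨r, fun u _ hu => hr.one u hu, hr.cont.continuousOn, hr.der⟩

theorem eval_eq {P : ℤ[X]} (hs : (P.map (Int.castRingHom ℚ)).Splits) (n : ℤ) :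
    P.eval n * ((P.map (Int.castRingHom ℚ)).roots.map fun r => (r.den : ℤ)).prod =
      P.leadingCoeff *
        ((P.map (Int.castRingHom ℚ)).roots.map fun r => (r.den : ℤ) * n - r.num).prod := by
  have h1 := congrArg (eval (n : ℚ)) hs.eq_prod_roots
  rw [eval_mul, eval_C, eval_multiset_prod, Multiset.map_map,
    leadingCoeff_map_of_injective (RingHom.injective_int _), eval_intCast_map] at h1
  generalize (P.map (Int.castRingHom ℚ)).roots = R at h1 ⊢
  have h2 : (((R.map fun r => (r.den : ℤ) * n - r.num).prod : ℤ) : ℚ) =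
      (R.map (eval (n : ℚ) ∘ fun a => X - C a)).prod *
        (((R.map fun r => (r.den : ℤ)).prod : ℤ) : ℚ) := by
    clear h1
    induction R using Multiset.induction_on with
    | empty => simp
    | cons r R ih =>
      simp only [Multiset.map_cons, Multiset.prod_cons, Int.cast_mul, ih]
      have e : (((r.den : ℤ) * n - r.num : ℤ) : ℚ) = ((n : ℚ) - r) * r.den := by
        push_cast
        rw [sub_mul, Rat.mul_den_eq_num]
        ring
      rw [e]
      simp only [Function.comp, eval_sub, eval_X, eval_C, Int.cast_natCast]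
      ring
  apply Int.cast_injective (α := ℚ)
  rw [Int.cast_mul, Int.cast_mul, h2, ← mul_assoc]
  congr 1

theorem Psi_le (P : ℤ[X]) (N : ℕ) (y : ℝ) : Psi P N y ≤ N := by
  classical
  have h : Psi P N y ≤ ((Icc 1 N).image fun n : ℕ => P.eval (n : ℤ)).card := by
    rw [← Set.ncard_coe_finset]
    refine Set.ncard_le_ncard ?_ (finite_toSet _)
    rintro m ⟨⟨n, h1, h2, rfl⟩, -⟩
    have h3 : n < N := by exact_mod_cast h2
    refine mem_coe.mpr (mem_image.mpr ⟨n.toNat, mem_Icc.mpr ⟨by omega, by omega⟩, ?_⟩)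
    rw [Int.toNat_of_nonneg (by omega)]
  refine h.trans (card_image_le.trans ?_)
  simp

theorem forms {P : ℤ[X]} (hP : 0 < P.natDegree) (hs : (P.map (Int.castRingHom ℚ)).Splits) :
    ∃ (a b : Fin (P.map (Int.castRingHom ℚ)).roots.toFinset.card → ℕ) (K y0 : ℕ),
      (∀ i, 0 < a i) ∧ (∀ i j, i ≠ j → a i * b j ≠ a j * b i) ∧ ∀ (N : ℕ) (y : ℝ), y0 ≤ y →
        Psi P N y ≤ cnt a b (fun _ => y) N + K ∧ cnt a b (fun _ => y) N ≤ Psi P N y + K := by
  classical
  have hev := eval_eq hs
  have hne : (P.map (Int.castRingHom ℚ)).roots ≠ 0 := hs.roots_ne_zero (by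
    rw [natDegree_map_eq_of_injective (RingHom.injective_int _)]; omega)
  generalize (P.map (Int.castRingHom ℚ)).roots = R at hev hne ⊢
  have hlc : P.leadingCoeff ≠ 0 := leadingCoeff_ne_zero.mpr (ne_zero_of_natDegree_gt hP)
  set n0 := ∑ r ∈ R.toFinset, r.num.natAbs with hn0
  have pos : ∀ r ∈ R, r.num ≤ (r.den : ℤ) * n0 := fun r hr => by
    have h1 : r.num.natAbs ≤ n0 := single_le_sum (f := fun r : ℚ => r.num.natAbs)
      (fun _ _ => Nat.zero_le _) (Multiset.mem_toFinset.mpr hr)
    have h2 : (1 : ℤ) ≤ r.den := by exact_mod_cast r.den_pos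
    have h3 : r.num ≤ n0 := by omega
    nlinarith [Int.natCast_nonneg n0]
  let e := R.toFinset.equivFin.symm
  have eR : ∀ i, (e i).1 ∈ R := fun i => Multiset.mem_toFinset.mp (e i).2
  set a : Fin R.toFinset.card → ℕ := fun i => (e i).1.den with ha
  set b : Fin R.toFinset.card → ℕ := fun i => (((e i).1.den : ℤ) * n0 - (e i).1.num).toNat with hb
  have hb' : ∀ i, (b i : ℤ) = ((e i).1.den : ℤ) * n0 - (e i).1.num := fun i =>
    Int.toNat_of_nonneg (by linarith [pos _ (eR i)])
  have hab : ∀ i (m : ℕ), ((a i * m + b i : ℕ) : ℤ) =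
      ((e i).1.den : ℤ) * ((m : ℤ) + n0) - (e i).1.num := fun i m => by
    push_cast
    rw [hb' i]
    ring
  set D := (R.map fun r => (r.den : ℤ)).prod with hD
  have hD0 : D ≠ 0 := Multiset.prod_ne_zero (by
    intro h
    obtain ⟨r, -, hr⟩ := Multiset.mem_map.mp h
    exact r.den_nz (by exact_mod_cast hr))
  have smo : ∀ (y : ℝ) (m : ℕ), ((P.leadingCoeff.natAbs + D.natAbs : ℕ) : ℝ) ≤ y →
      ((∀ p : ℕ, p.Prime → (p : ℤ) ∣ P.eval ((m : ℤ) + n0) → (p : ℝ) ≤ y) ↔
        ∀ i, sm y (a i * m + b i)) := fun y m hy => by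
    have small : ∀ (p : ℕ) (c : ℤ), c ≠ 0 → c.natAbs ≤ P.leadingCoeff.natAbs + D.natAbs →
        (p : ℤ) ∣ c → (p : ℝ) ≤ y := fun p c hc h1 h2 => by
      have := Nat.le_of_dvd (Int.natAbs_pos.mpr hc) (Int.natCast_dvd.mp h2)
      exact le_trans (by exact_mod_cast this.trans h1) hy
    constructor
    · intro h i p hp hd
      have h1 : (p : ℤ) ∣ P.eval ((m : ℤ) + n0) * D := by
        rw [hev]
        refine Dvd.dvd.mul_left (Dvd.dvd.trans ?_ (Multiset.dvd_prod
          (Multiset.mem_map_of_mem _ (eR i)))) _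
        rw [← hab]
        exact_mod_cast hd
      rcases (Nat.prime_iff_prime_int.mp hp).dvd_or_dvd h1 with h2 | h2
      · exact h p hp h2
      · exact small p D hD0 (by omega) h2
    · intro h p hp hd
      have h1 := hd.mul_right D
      rw [hev] at h1
      rcases (Nat.prime_iff_prime_int.mp hp).dvd_or_dvd h1 with h2 | h2
      · exact small p _ hlc (by omega) h2
      · obtain ⟨r, hr, h3⟩ := (Nat.prime_iff_prime_int.mp hp).exists_mem_multiset_map_dvd h2
        obtain ⟨i, hi⟩ := e.surjective ⟨r, Multiset.mem_toFinset.mpr hr⟩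
        refine h i p hp ?_
        have h4 := hab i m
        rw [hi] at h4
        rw [← h4] at h3
        exact_mod_cast h3
  have lt : ∀ m m' : ℕ, 1 ≤ m → m < m' → P.eval ((m : ℤ) + n0) ≠ P.eval ((m' : ℤ) + n0) := by
    intro m m' hm hmm h
    have h1 := hev ((m : ℤ) + n0)
    rw [h, hev] at h1
    have h2 := mul_left_cancel₀ hlc h1
    refine absurd h2 (ne_of_gt (Multiset.prod_map_lt_prod_map hne _ _ (fun r hr => ?_)
      fun r hr => ?_))
    · have h2 : (1 : ℤ) ≤ r.den := by exact_mod_cast r.den_pos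
      have h3 : (1 : ℤ) ≤ m := by exact_mod_cast hm
      nlinarith [pos r hr]
    · have h2 : (1 : ℤ) ≤ r.den := by exact_mod_cast r.den_pos
      have h3 : (m : ℤ) < m' := by exact_mod_cast hmm
      nlinarith
  refine ⟨a, b, n0 + 1, P.leadingCoeff.natAbs + D.natAbs, fun i => (e i).1.den_pos,
    fun i j hij h => hij ?_, fun N y hy => ⟨?_, ?_⟩⟩
  · have h1 : (a i : ℤ) * b j = a j * b i := by exact_mod_cast h
    rw [hb', hb'] at h1
    refine e.injective (Subtype.ext (Rat.eq_iff_mul_eq_mul.mpr ?_))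
    simp only [ha] at h1
    linarith
  · have h1 : Psi P N y ≤ ((((Icc 1 N).filter fun m => ∀ i, sm y (a i * m + b i)).image
        fun m : ℕ => P.eval ((m : ℤ) + n0)) ∪
          (range (n0 + 1)).image fun n : ℕ => P.eval (n : ℤ)).card := by
      rw [← Set.ncard_coe_finset]
      refine Set.ncard_le_ncard ?_ (finite_toSet _)
      rintro v ⟨⟨n, h1, h2, rfl⟩, h4⟩
      have h3 : n < N := by exact_mod_cast h2
      refine mem_coe.mpr (mem_union.mpr ?_)
      by_cases c : n ≤ n0
      · refine Or.inr (mem_image.mpr ⟨n.toNat, mem_range.mpr (by omega), ?_⟩)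
        rw [Int.toNat_of_nonneg (by omega)]
      · have e1 : (((n - n0).toNat : ℕ) : ℤ) + n0 = n := by omega
        refine Or.inl (mem_image.mpr ⟨(n - n0).toNat, mem_filter.mpr
          ⟨mem_Icc.mpr ⟨by omega, by omega⟩, (smo y _ hy).mp ?_⟩, by rw [e1]⟩)
        rw [e1]
        exact h4
    refine h1.trans ((card_union_le _ _).trans (add_le_add card_image_le ?_))
    exact card_image_le.trans (card_range _).le
  · set T := (Icc 1 N).filter fun m => ∀ i, sm y (a i * m + b i) with hT
    have h1 : ((T.filter fun m => m + n0 < N).image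
        fun m : ℕ => P.eval ((m : ℤ) + n0)).card ≤ Psi P N y := by
      rw [← Set.ncard_coe_finset]
      refine Set.ncard_le_ncard ?_ ?_
      · intro v hv
        obtain ⟨m, hm, rfl⟩ := mem_image.mp (mem_coe.mp hv)
        obtain ⟨h2, h3⟩ := mem_filter.mp hm
        obtain ⟨h4, h5⟩ := mem_filter.mp h2
        have h6 := (mem_Icc.mp h4).1
        exact ⟨⟨_, by omega, by exact_mod_cast h3, rfl⟩, (smo y m hy).mpr h5⟩
      · refine ((Set.finite_Icc (1 : ℤ) N).image fun n => P.eval n).subset ?_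
        rintro v ⟨⟨n, h1, h2, rfl⟩, -⟩
        have h3 : n < N := by exact_mod_cast h2
        exact ⟨n, ⟨h1, h3.le⟩, rfl⟩
    rw [card_image_of_injOn] at h1
    · have h2 := card_filter_add_card_filter_not (s := T) fun m => m + n0 < N
      have h3 : (T.filter fun m => ¬ m + n0 < N).card ≤ (Icc (N - n0) N).card :=
        card_le_card fun m hm => by
          obtain ⟨h2, h3⟩ := mem_filter.mp hm
          have := (mem_Icc.mp (mem_filter.mp h2).1).2
          exact mem_Icc.mpr ⟨by omega, this⟩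
      rw [Nat.card_Icc] at h3
      have h4 : cnt a b (fun _ => y) N = T.card := rfl
      omega
    · intro m hm m' hm' h
      have h2 := (mem_Icc.mp (mem_filter.mp (mem_filter.mp (mem_coe.mp hm)).1).1).1
      have h3 := (mem_Icc.mp (mem_filter.mp (mem_filter.mp (mem_coe.mp hm')).1).1).1
      rcases lt_trichotomy m m' with c | c | c
      · exact absurd h (lt m m' h2 c)
      · exact c
      · exact absurd h.symm (lt m' m h3 c)

end Pool.Agent.P.MP_4ef411_nt.Sm
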