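import Mathlib

/-! The Dickman function: existence, positivity, monotonicity. -/

open Set

namespace Pool.Agent.P.MP_4ef411_nt.Sm

/-- the Dickman function, extended by one to the negative numbers -/
structure Dk (r : ℝ → ℝ) : Prop where
  one : ∀ u, u ≤ 1 → r u = 1
  cont : Continuous r
  der : ∀ u, 1 < u → HasDerivAt r (-r (u - 1) / u) u

theorem le_of_der {f f' : ℝ → ℝ} {s t : ℝ} (hst : s ≤ t) (hc : ContinuousOn f (Icc s t))
    (hd : ∀ x ∈ Ioo s t, HasDerivAt f (f' x) x) (h0 : ∀ x ∈ Ioo s t, 0 ≤ f' x) : f s ≤ f t := by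
  rcases hst.eq_or_lt with rfl | h
  · exact le_rfl
  · obtain ⟨c, hc1, hc2⟩ := exists_hasDerivAt_eq_slope f f' h hc hd
    have := h0 c hc1
    rw [hc2, le_div_iff₀ (by linarith)] at this
    linarith

namespace Dk

variable {r : ℝ → ℝ}

theorem int_le (h : Dk r) {u : ℝ} (hu : 1 ≤ u) : ∫ t in (u - 1)..u, r t ≤ u * r u := by
  have hF : ∀ x, HasDerivAt (fun x => ∫ t in (0 : ℝ)..x, r t) (r x) x := fun x =>
    intervalIntegral.integral_hasDerivAt_right (h.cont.intervalIntegrable _ _)
      (h.cont.stronglyMeasurableAtFilter _ _) h.cont.continuousAt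
  have hFc : Continuous fun x => ∫ t in (0 : ℝ)..x, r t :=
    continuous_iff_continuousAt.mpr fun x => (hF x).continuousAt
  have key := le_of_der (f := fun x => x * r x - ((∫ t in (0 : ℝ)..x, r t) -
      ∫ t in (0 : ℝ)..(x - 1), r t)) (f' := fun _ => 0) hu
    (((continuous_id.mul h.cont).sub (hFc.sub (hFc.comp
      (continuous_id.sub continuous_const)))).continuousOn) (fun x hx => by
      have h1 := ((hasDerivAt_id x).mul (h.der x hx.1)).sub ((hF x).sub
        ((hF (x - 1)).comp x ((hasDerivAt_id x).sub_const 1)))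
      have hx0 : x ≠ 0 := by linarith [hx.1]
      refine h1.congr_deriv ?_
      simp only [id]
      field_simp
      ring) fun _ _ => le_rfl
  have e1 : ∫ t in (0 : ℝ)..1, r t = 1 := by
    rw [intervalIntegral.integral_congr (g := fun _ => (1 : ℝ)) fun t ht => h.one t (by
      rw [uIcc_of_le zero_le_one] at ht; exact ht.2)]
    simp
  have e2 := intervalIntegral.integral_interval_sub_left (μ := MeasureTheory.volume)
    (h.cont.intervalIntegrable 0 u) (h.cont.intervalIntegrable 0 (u - 1))
  simp only [sub_self, intervalIntegral.integral_same, e1, h.one 1 le_rfl, e2] at key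
  linarith

theorem pos (h : Dk r) (u : ℝ) : 0 < r u := by
  by_contra hu
  have hcl : IsClosed {x | r x ≤ 0} := isClosed_le h.cont continuous_const
  have hbd : ∀ x ∈ {x | r x ≤ 0}, 1 < x := fun x hx => by
    by_contra h1
    have h2 : r x ≤ 0 := hx
    rw [h.one x (not_lt.mp h1)] at h2
    linarith
  have hb : BddBelow {x | r x ≤ 0} := ⟨1, fun x hx => (hbd x hx).le⟩
  have hm := hcl.csInf_mem ⟨u, not_lt.mp hu⟩ hb
  set v := sInf {x | r x ≤ 0}
  have h1 := hbd v hm
  have h2 := h.int_le h1.le
  have h3 : 0 < ∫ t in (v - 1)..v, r t :=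
    intervalIntegral.intervalIntegral_pos_of_pos_on (h.cont.intervalIntegrable _ _)
      (fun x hx => by
        by_contra h4
        exact absurd (csInf_le hb (not_lt.mp h4 : r x ≤ 0)) (not_le.mpr hx.2)) (by linarith)
  have h4 : r v ≤ 0 := hm
  nlinarith

theorem anti1 (h : Dk r) {s t : ℝ} (hs : 1 ≤ s) (hst : s ≤ t) : r t ≤ r s := by
  have := le_of_der (f := fun x => -r x) (f' := fun x => -(-r (x - 1) / x)) hst
    h.cont.neg.continuousOn (fun x hx => (h.der x (by linarith [hx.1])).neg) fun x hx => by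
      have h1 := h.pos (x - 1)
      have h2 : 0 < x := by linarith [hx.1]
      rw [neg_div, neg_neg]
      positivity
  linarith

theorem max_eq (h : Dk r) (s : ℝ) : r (max s 1) = r s := by
  rcases le_total s 1 with h1 | h1
  · rw [max_eq_right h1, h.one 1 le_rfl, h.one s h1]
  · rw [max_eq_left h1]

theorem anti (h : Dk r) {s t : ℝ} (hst : s ≤ t) : r t ≤ r s := by
  rw [← h.max_eq s, ← h.max_eq t]
  exact h.anti1 (le_max_right _ _) (max_le_max hst le_rfl)

theorem le_one (h : Dk r) (t : ℝ) : r t ≤ 1 := by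
  rw [← h.max_eq t, ← h.one 1 le_rfl]
  exact h.anti (by rw [h.one 1 le_rfl]; exact le_max_right _ _)

theorem log_bd (h : Dk r) {s t : ℝ} (hs : 1 ≤ s) (hst : s ≤ t) :
    r (t - 1) * (Real.log t - Real.log s) ≤ r s - r t ∧
      r s - r t ≤ r (s - 1) * (Real.log t - Real.log s) := by
  have hl : ContinuousOn Real.log (Icc s t) :=
    Real.continuousOn_log.mono fun x hx => ne_of_gt (by linarith [hx.1] : 0 < x)
  constructor
  · have := le_of_der (f := fun x => -r x - r (t - 1) * Real.log x)
      (f' := fun x => -(-r (x - 1) / x) - r (t - 1) * x⁻¹) hst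
      (h.cont.neg.continuousOn.sub (continuousOn_const.mul hl))
      (fun x hx => (h.der x (by linarith [hx.1])).neg.sub
        ((Real.hasDerivAt_log (ne_of_gt (by linarith [hx.1] : 0 < x))).const_mul _)) fun x hx => by
        have h2 : 0 < x := by linarith [hx.1]
        have h3 := h.anti (show x - 1 ≤ t - 1 by linarith [hx.2])
        have e : -(-r (x - 1) / x) - r (t - 1) * x⁻¹ = (r (x - 1) - r (t - 1)) / x := by ring
        rw [e]
        exact div_nonneg (by linarith) h2.le
    linarith
  · have := le_of_der (f := fun x => r x + r (s - 1) * Real.log x)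
      (f' := fun x => -r (x - 1) / x + r (s - 1) * x⁻¹) hst
      (h.cont.continuousOn.add (continuousOn_const.mul hl))
      (fun x hx => (h.der x (by linarith [hx.1])).add
        ((Real.hasDerivAt_log (ne_of_gt (by linarith [hx.1] : 0 < x))).const_mul _)) fun x hx => by
        have h2 : 0 < x := by linarith [hx.1]
        have h3 := h.anti (show s - 1 ≤ x - 1 by linarith [hx.1])
        have e : -r (x - 1) / x + r (s - 1) * x⁻¹ = (r (s - 1) - r (x - 1)) / x := by ring
        rw [e]
        exact div_nonneg (by linarith) h2.le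
    linarith

theorem sub_le_log (h : Dk r) {s t : ℝ} (hs : 1 ≤ s) (hst : s ≤ t) :
    r s - r t ≤ Real.log t - Real.log s := by
  have h1 := (h.log_bd hs hst).2
  have h2 := Real.log_le_log (by linarith) hst
  have h3 := h.le_one (s - 1)
  nlinarith

theorem sub_le (h : Dk r) {s t : ℝ} (hst : s ≤ t) : r s - r t ≤ t - s := by
  rw [← h.max_eq s, ← h.max_eq t]
  have h0 : max s 1 ≤ max t 1 := max_le_max hst le_rfl
  have h1 : 1 ≤ max s 1 := le_max_right _ _
  have h2 := h.sub_le_log h1 h0
  have h3 : max t 1 - max s 1 ≤ t - s := by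
    rcases le_total s 1 with a | a <;> rcases le_total t 1 with b | b <;>
      simp only [max_eq_left, max_eq_right, a, b] <;> linarith
  generalize max s 1 = x at *
  generalize max t 1 = y at *
  have h4 := Real.log_le_sub_one_of_pos (x := y / x) (div_pos (by linarith) (by linarith))
  rw [Real.log_div (by linarith) (by linarith)] at h4
  have h5 : y / x - 1 ≤ y - x := by
    rw [div_sub_one (by linarith), div_le_iff₀ (by linarith)]
    nlinarith
  linarith

theorem lip (h : Dk r) (s t : ℝ) : |r s - r t| ≤ |s - t| := by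
  rcases le_total s t with a | a
  · rw [abs_of_nonneg (by linarith [h.anti a]), abs_of_nonpos (by linarith)]
    linarith [h.sub_le a]
  · rw [abs_of_nonpos (by linarith [h.anti a]), abs_of_nonneg (by linarith)]
    linarith [h.sub_le a]

end Dk

/-- successive approximations -/
noncomputable def ap : ℕ → ℝ → ℝ
  | 0 => fun _ => 1
  | k + 1 => fun u => 1 - ∫ t in (1 : ℝ)..max u 1, ap k (t - 1) / max t 1

theorem prim_der {g : ℝ → ℝ} (hg : Continuous g) (x : ℝ) :
    HasDerivAt (fun x => ∫ t in (1 : ℝ)..x, g t) (g x) x :=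
  intervalIntegral.integral_hasDerivAt_right (hg.intervalIntegrable _ _)
    (hg.stronglyMeasurableAtFilter _ _) hg.continuousAt

theorem integrand_cont {g : ℝ → ℝ} (hg : Continuous g) :
    Continuous fun t : ℝ => g (t - 1) / max t 1 :=
  (hg.comp (continuous_id.sub continuous_const)).div (continuous_id.max continuous_const)
    fun t => ne_of_gt (lt_of_lt_of_le one_pos (le_max_right t 1))

theorem ap_cont (k : ℕ) : Continuous (ap k) := by
  induction k with
  | zero => exact continuous_const
  | succ k ih =>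
    exact continuous_const.sub ((continuous_iff_continuousAt.mpr fun x =>
      (prim_der (integrand_cont ih) x).continuousAt).comp (continuous_id.max continuous_const))

theorem ap_succ (k : ℕ) : ∀ u : ℝ, u ≤ k + 1 → ap (k + 1) u = ap k u := by
  induction k with
  | zero =>
    intro u hu
    have : max u 1 = 1 := max_eq_right (by simpa using hu)
    simp [ap, this]
  | succ k ih =>
    intro u hu
    have e : ∀ (j : ℕ) (u : ℝ), ap (j + 1) u =
        1 - ∫ t in (1 : ℝ)..max u 1, ap j (t - 1) / max t 1 := fun _ _ => rfl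
    rw [e (k + 1), e k]
    congr 1
    refine intervalIntegral.integral_congr fun t ht => ?_
    rw [uIcc_of_le (le_max_right _ _)] at ht
    have h1 : max u 1 ≤ (k : ℝ) + 2 := max_le (by push_cast at hu; linarith)
      (by linarith [Nat.cast_nonneg (α := ℝ) k])
    simp only [ih (t - 1) (by linarith [ht.2])]

theorem ap_eq {j k : ℕ} (hjk : j ≤ k) {u : ℝ} (hu : u ≤ j + 1) : ap k u = ap j u := by
  induction k, hjk using Nat.le_induction with
  | base => rfl
  | succ k hk ih =>
    have : (j : ℝ) ≤ k := by exact_mod_cast hk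
    rw [ap_succ k u (by linarith), ih]

theorem exists_dk : ∃ r, Dk r := by
  have key : ∀ (k : ℕ) (u : ℝ), u ≤ k + 1 → ap ⌈u⌉₊ u = ap k u := fun k u hu => by
    rcases le_total ⌈u⌉₊ k with h | h
    · exact (ap_eq h (by linarith [Nat.le_ceil u])).symm
    · exact ap_eq h hu
  have ev : ∀ (k : ℕ) (u : ℝ), u < k + 1 → (fun u => ap ⌈u⌉₊ u) =ᶠ[nhds u] ap k := fun k u hu =>
    Filter.eventually_of_mem (Iio_mem_nhds hu) fun x hx => key k x (le_of_lt hx)
  refine ⟨fun u => ap ⌈u⌉₊ u, fun u hu => key 0 u (by simpa using hu), ?_, fun u hu => ?_⟩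
  · refine continuous_iff_continuousAt.mpr fun u => ?_
    exact (ap_cont ⌈u⌉₊).continuousAt.congr (ev ⌈u⌉₊ u (by linarith [Nat.le_ceil u])).symm
  · have h0 := Nat.le_ceil u
    have h1 := (prim_der (integrand_cont (ap_cont ⌈u⌉₊)) u).const_sub 1
    have h2 : (fun u => ap ⌈u⌉₊ u) =ᶠ[nhds u]
        fun x => 1 - ∫ t in (1 : ℝ)..x, ap ⌈u⌉₊ (t - 1) / max t 1 := by
      refine (ev (⌈u⌉₊ + 1) u (by push_cast; linarith)).trans ?_
      refine Filter.eventually_of_mem (Ioi_mem_nhds hu) fun x hx => ?_
      have : max x 1 = x := max_eq_left (le_of_lt hx)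
      simp only [ap, this]
    refine (h1.congr_of_eventuallyEq h2).congr_deriv ?_
    rw [key ⌈u⌉₊ (u - 1) (by linarith), max_eq_left hu.le, neg_div]

end Pool.Agent.P.MP_4ef411_nt.Sm
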