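import Mathlib

/-! The Dickman function and the number of smooth values of a polynomial. -/

namespace Pool.Agent.P.MP_4ef411_nt.Sm

/-- `ρ` is the Dickman function on `[0, ∞)`. -/
def Dickman (ρ : ℝ → ℝ) : Prop :=
  (∀ u, 0 ≤ u → u ≤ 1 → ρ u = 1) ∧ ContinuousOn ρ (Set.Ici 0) ∧
    ∀ u, 1 < u → HasDerivAt ρ (-ρ (u - 1) / u) u

/-- The number of distinct integers `m = P n`, `1 ≤ n < x`, all of whose prime divisors are at
most `y`. -/
noncomputable def Psi (P : Polynomial ℤ) (x y : ℝ) : ℕ :=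
  Set.ncard {m : ℤ | (∃ n : ℤ, 1 ≤ n ∧ (n : ℝ) < x ∧ P.eval n = m) ∧
    ∀ p : ℕ, p.Prime → (p : ℤ) ∣ m → (p : ℝ) ≤ y}

end Pool.Agent.P.MP_4ef411_nt.Sm
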