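import Pool.Agent.P.MP_4ef411_nt.Sm.Stmt

/-! The number of simultaneously smooth values of several polynomials. -/

namespace Pool.Agent.P.MP_4ef411_nt.Sm

/-- The number of distinct tuples `m = (P i n)_i`, `1 ≤ n < x`, such that for each `i` all prime
divisors of `m i` are at most `y i`. -/
noncomputable def PsiS {r : ℕ} (P : Fin r → Polynomial ℤ) (x : ℝ) (y : Fin r → ℝ) : ℕ :=
  Set.ncard {m : Fin r → ℤ | (∃ n : ℤ, 1 ≤ n ∧ (n : ℝ) < x ∧ ∀ i, (P i).eval n = m i) ∧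
    ∀ i, ∀ p : ℕ, p.Prime → (p : ℤ) ∣ m i → (p : ℝ) ≤ y i}

end Pool.Agent.P.MP_4ef411_nt.Sm
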